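import Mathlib
import Pool.Agent.Helper50.Dem.MainP

/-!
# Homogeneous components, divisors of forms, orders of products
-/

set_option autoImplicit false

open MvPolynomial

namespace Pool.Agent.Helper50.N2

open Pool.Agent.Helper50.Dem

section ring

variable {σ : Type} {K : Type*} [CommRing K]

/-- the homomorphism `f(x) ↦ f(λ x)` -/
noncomputable def Gam : MvPolynomial σ K →ₐ[K] Polynomial (MvPolynomial σ K) :=
  aeval (fun i => Polynomial.X * Polynomial.C (X i))

lemma Gam_monomial (u : σ →₀ ℕ) (a : K) :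
    Gam (monomial u a) = Polynomial.monomial u.degree (monomial u a) := by
  induction u using Finsupp.induction_linear generalizing a with
  | zero =>
    have h1 : (monomial 0 a : MvPolynomial σ K) = algebraMap K _ a := rfl
    rw [h1, AlgHom.commutes, map_zero]
    rfl
  | add f g hf hg =>
    have h1 : (monomial (f + g) a : MvPolynomial σ K) = monomial f a * monomial g 1 := by
      rw [monomial_mul, mul_one]
    rw [h1, map_mul, hf, hg, Polynomial.monomial_mul_monomial, map_add]
  | single i n =>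
    have h1 : (monomial (Finsupp.single i n) a : MvPolynomial σ K) = C a * X i ^ n := by
      rw [X_pow_eq_monomial, C_mul_monomial, mul_one]
    have h2 : Gam (C a : MvPolynomial σ K) = Polynomial.C (C a) := by
      rw [← algebraMap_eq, AlgHom.commutes]; rfl
    rw [h1, map_mul, map_pow, h2, Finsupp.degree_single]
    have h3 : Gam (X i : MvPolynomial σ K) = Polynomial.X * Polynomial.C (X i) := by simp [Gam]
    rw [h3, mul_pow, ← Polynomial.C_mul_X_pow_eq_monomial, Polynomial.C_mul, Polynomial.C_pow]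
    ring

lemma Gam_coeff (f : MvPolynomial σ K) (n : ℕ) :
    (Gam f).coeff n = homogeneousComponent n f := by
  classical
  induction f using MvPolynomial.induction_on' with
  | monomial u a =>
    rw [Gam_monomial, Polynomial.coeff_monomial,
      homogeneousComponent_of_mem (isHomogeneous_monomial a rfl)]
    by_cases h : u.degree = n
    · rw [if_pos h, if_pos h.symm]
    · rw [if_neg h, if_neg (Ne.symm h)]
  | add f g hf hg => rw [map_add, Polynomial.coeff_add, hf, hg, map_add]

lemma Gam_form {f : MvPolynomial σ K} {d : ℕ} (hf : f.IsHomogeneous d) :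
    Gam f = Polynomial.C f * Polynomial.X ^ d := by
  ext1 n
  rw [Gam_coeff, Polynomial.coeff_C_mul_X_pow, homogeneousComponent_of_mem hf]

lemma hc_mul_form {s : MvPolynomial σ K} {k : ℕ} (hs : s.IsHomogeneous k)
    (c : MvPolynomial σ K) (n : ℕ) :
    homogeneousComponent (n + k) (c * s) = homogeneousComponent n c * s := by
  rw [← Gam_coeff, ← Gam_coeff, map_mul, Gam_form hs, ← mul_assoc, Polynomial.coeff_mul_X_pow,
    Polynomial.coeff_mul_C]

lemma hc_mul_form_of_lt {s : MvPolynomial σ K} {k : ℕ} (hs : s.IsHomogeneous k)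
    (c : MvPolynomial σ K) {n : ℕ} (hn : n < k) : homogeneousComponent n (c * s) = 0 := by
  rw [← Gam_coeff, map_mul, Gam_form hs, ← mul_assoc, Polynomial.coeff_mul_X_pow', if_neg]
  omega

lemma mem_Vi_iff_dvd {P : σ → K} {k : ℕ} {f : MvPolynomial σ K} :
    f ∈ Vi P k ↔ Polynomial.X ^ k ∣ Gam (tr P f) := by
  rw [mem_Vi, Polynomial.X_pow_dvd_iff]
  constructor
  · intro h n hn
    rw [Gam_coeff]
    ext u
    rw [coeff_homogeneousComponent, coeff_zero]
    split_ifs with hu
    · exact h u (by omega)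
    · rfl
  · intro h u hu
    have h1 := congrArg (coeff u) (h _ hu)
    rw [Gam_coeff, coeff_homogeneousComponent, if_pos rfl, coeff_zero] at h1
    exact h1

lemma idealOfVars_pow_of_form {k n : ℕ} (h : k ≤ n) {f : MvPolynomial σ K}
    (hf : f.IsHomogeneous n) : f ∈ idealOfVars σ K ^ k := by
  rw [mem_pow_idealOfVars_iff']
  intro u hu
  exact hf.coeff_eq_zero (by omega)

/-- membership in the ideal generated by a set of forms, degree by degree -/
lemma exists_form_of_mem_span {S : Set (MvPolynomial σ K)}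
    (hS : ∀ s ∈ S, ∃ k : ℕ, s.IsHomogeneous k) {f : MvPolynomial σ K}
    (hf : f ∈ Ideal.span S) (n : ℕ) : homogeneousComponent n f ∈ Ideal.span S := by
  induction hf using Submodule.span_induction generalizing n with
  | mem x hx =>
    obtain ⟨k, hk⟩ := hS x hx
    rw [homogeneousComponent_of_mem hk]
    split_ifs
    · exact Ideal.subset_span hx
    · exact Ideal.zero_mem _
  | zero => rw [map_zero]; exact Ideal.zero_mem _
  | add x y _ _ hx hy => rw [map_add]; exact Ideal.add_mem _ (hx n) (hy n)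
  | smul a x _ hx =>
    rw [smul_eq_mul, ← Gam_coeff, map_mul, Polynomial.coeff_mul]
    apply Ideal.sum_mem
    rintro ⟨i, j⟩ _
    rw [Gam_coeff, Gam_coeff]
    exact Ideal.mul_mem_left _ _ (hx j)

/-- a form of degree `d` in an ideal generated by forms of degree `≤ D` -/
lemma mem_mul_span_of_form {S : Set (MvPolynomial σ K)} {D k d : ℕ}
    (hS : ∀ s ∈ S, ∃ n ≤ D, s.IsHomogeneous n) (hd : D + k ≤ d) {f : MvPolynomial σ K}
    (hf : f ∈ Ideal.span S) (hfd : f.IsHomogeneous d) :
    f ∈ idealOfVars σ K ^ k * Ideal.span S := by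
  classical
  obtain ⟨c, hc1, hc2⟩ := Submodule.mem_span_set.1 hf
  rw [← homogeneousComponent_eq_self hfd, ← hc2, Finsupp.sum, map_sum]
  apply Ideal.sum_mem
  intro s hs
  obtain ⟨n, hnD, hn⟩ := hS s (hc1 hs)
  obtain ⟨e, he⟩ : ∃ e, d = e + n := ⟨d - n, by omega⟩
  rw [smul_eq_mul, he, hc_mul_form hn]
  exact Ideal.mul_mem_mul (idealOfVars_pow_of_form (by omega)
    (homogeneousComponent_isHomogeneous e _)) (Ideal.subset_span (hc1 hs))

/-- a linear combination of forms equal to a form can be taken homogeneous -/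
lemma exists_form_pair {f a b G H : MvPolynomial σ K} {d g h : ℕ} (hf : f.IsHomogeneous d)
    (hG : G.IsHomogeneous g) (hH : H.IsHomogeneous h) (hgd : g ≤ d) (hhd : h ≤ d)
    (hab : f = a * G + b * H) : ∃ a' b' : MvPolynomial σ K, a'.IsHomogeneous (d - g) ∧
      b'.IsHomogeneous (d - h) ∧ f = a' * G + b' * H := by
  refine ⟨homogeneousComponent (d - g) a, homogeneousComponent (d - h) b,
    homogeneousComponent_isHomogeneous _ _, homogeneousComponent_isHomogeneous _ _, ?_⟩
  rw [← hc_mul_form hG, ← hc_mul_form hH, Nat.sub_add_cancel hgd, Nat.sub_add_cancel hhd,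
    ← map_add, ← hab, homogeneousComponent_eq_self hf]

/-- ideal of the forms vanishing to order `μ i` at `P i` -/
noncomputable def JJ {ι : Type*} (P : ι → σ → K) (μ : ι → ℕ) : Ideal (MvPolynomial σ K) :=
  Ideal.span {f | (∃ n, f.IsHomogeneous n) ∧ ∀ i, f ∈ Vi (P i) (μ i)}

lemma mem_JJ_of_form {ι : Type*} {P : ι → σ → K} {μ : ι → ℕ} {f : MvPolynomial σ K} {n : ℕ}
    (hf : f.IsHomogeneous n) (h : ∀ i, f ∈ Vi (P i) (μ i)) : f ∈ JJ P μ :=
  Ideal.subset_span ⟨⟨n, hf⟩, h⟩

lemma Vi_of_mem_JJ {ι : Type*} {P : ι → σ → K} {μ : ι → ℕ} {f : MvPolynomial σ K}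
    (hf : f ∈ JJ P μ) (i : ι) : f ∈ Vi (P i) (μ i) := by
  have : JJ P μ ≤ Vi (P i) (μ i) := Ideal.span_le.2 fun x hx => hx.2 i
  exact this hf

lemma hc_mem_JJ {ι : Type*} {P : ι → σ → K} {μ : ι → ℕ} {f : MvPolynomial σ K}
    (hf : f ∈ JJ P μ) (n : ℕ) : homogeneousComponent n f ∈ JJ P μ :=
  exists_form_of_mem_span (fun _ hs => hs.1) hf n

lemma mem_JJ_of_hc {ι : Type*} {P : ι → σ → K} {μ : ι → ℕ} {f : MvPolynomial σ K}
    (hf : ∀ n, homogeneousComponent n f ∈ JJ P μ) : f ∈ JJ P μ := by
  rw [← sum_homogeneousComponent f]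
  exact Ideal.sum_mem _ fun n _ => hf n

end ring

section domain

variable {σ : Type} {K : Type*} [CommRing K] [IsDomain K]

/-- divisors of forms are forms -/
lemma form_of_mul {f a b : MvPolynomial σ K} {d : ℕ} (hf : f.IsHomogeneous d) (h0 : f ≠ 0)
    (hab : f = a * b) : ∃ i j : ℕ, a.IsHomogeneous i ∧ b.IsHomogeneous j ∧ i + j = d := by
  have ha0 : a ≠ 0 := by rintro rfl; exact h0 (by rw [hab, zero_mul])
  have hb0 : b ≠ 0 := by rintro rfl; exact h0 (by rw [hab, mul_zero])
  have hinj : Function.Injective (Gam : MvPolynomial σ K →ₐ[K] _) := by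
    intro u v huv
    ext m
    have h1 := congrArg (fun q => coeff m (Polynomial.coeff q m.degree)) huv
    simp only [Gam_coeff, coeff_homogeneousComponent, if_pos] at h1
    exact h1
  have hGa : Gam a ≠ 0 := fun h => ha0 (hinj (by rw [h, map_zero]))
  have hGb : Gam b ≠ 0 := fun h => hb0 (hinj (by rw [h, map_zero]))
  have h1 : Gam a * Gam b = Polynomial.C f * Polynomial.X ^ d := by
    rw [← map_mul, ← hab, Gam_form hf]
  have h2 : (Gam a).natDegree + (Gam b).natDegree = d := by
    rw [← Polynomial.natDegree_mul hGa hGb, h1, Polynomial.natDegree_C_mul_X_pow _ _ h0]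
  have h3 : (Gam a).natTrailingDegree + (Gam b).natTrailingDegree = d := by
    rw [← Polynomial.natTrailingDegree_mul hGa hGb, h1, Polynomial.C_mul_X_pow_eq_monomial,
      Polynomial.natTrailingDegree_monomial h0]
  have h4 := Polynomial.natTrailingDegree_le_natDegree (Gam a)
  have h5 := Polynomial.natTrailingDegree_le_natDegree (Gam b)
  have key : ∀ c : MvPolynomial σ K, (Gam c).natTrailingDegree = (Gam c).natDegree →
      c.IsHomogeneous (Gam c).natDegree := by
    intro c hc
    have h6 : ∀ n, n ≠ (Gam c).natDegree → homogeneousComponent n c = 0 := by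
      intro n hn
      rw [← Gam_coeff]
      rcases lt_or_gt_of_ne hn with h | h
      · exact Polynomial.coeff_eq_zero_of_lt_natTrailingDegree (by omega)
      · exact Polynomial.coeff_eq_zero_of_natDegree_lt h
    rw [← sum_homogeneousComponent c]
    have h7 : ∀ i ∈ Finset.range (c.totalDegree + 1), (homogeneousComponent i c).IsHomogeneous
        (Gam c).natDegree := by
      intro i _
      by_cases hi : i = (Gam c).natDegree
      · rw [← hi]; exact homogeneousComponent_isHomogeneous _ _
      · rw [h6 i hi]; exact isHomogeneous_zero _ _ _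
    have h8 := IsHomogeneous.sum (Finset.range (c.totalDegree + 1))
      (fun i => homogeneousComponent i c) _ h7
    rwa [sum_homogeneousComponent c] at h8 ⊢
  refine ⟨_, _, key a (by omega), key b (by omega), h2⟩

lemma form_of_dvd {f a : MvPolynomial σ K} {d : ℕ} (hf : f.IsHomogeneous d) (h0 : f ≠ 0)
    (h : a ∣ f) : ∃ i ≤ d, a.IsHomogeneous i := by
  obtain ⟨b, hb⟩ := h
  obtain ⟨i, j, hi, _, hij⟩ := form_of_mul hf h0 hb
  exact ⟨i, by omega, hi⟩

/-- cancellation of a factor of known order -/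
lemma Vi_pow_mul_cancel {P : σ → K} {t k l : ℕ} {g h : MvPolynomial σ K} (hg : g ∈ Vi P k)
    (hg' : g ∉ Vi P (k + 1)) (hh : g ^ t * h ∈ Vi P (t * k + l)) : h ∈ Vi P l := by
  rw [mem_Vi_iff_dvd] at *
  obtain ⟨u, hu⟩ := hg
  have hX : Prime (Polynomial.X : Polynomial (MvPolynomial σ K)) := Polynomial.prime_X
  have hu' : ¬ Polynomial.X ∣ u := by
    intro h1
    apply hg'
    rw [hu, pow_succ]
    exact mul_dvd_mul_left _ h1
  rw [map_mul, map_pow, map_mul, map_pow, hu, mul_pow, ← pow_mul, mul_comm k t, pow_add,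
    mul_assoc] at hh
  have h1 := (mul_dvd_mul_iff_left (pow_ne_zero (t * k) Polynomial.X_ne_zero)).1 hh
  exact hX.pow_dvd_of_dvd_mul_left l (fun h2 => hu' (hX.dvd_of_dvd_pow h2)) h1

/-- a nonzero form has a finite order at every point -/
lemma exists_order {P : σ → K} {d : ℕ} {g : MvPolynomial σ K} (hg : g.IsHomogeneous d)
    (h0 : g ≠ 0) : ∃ k ≤ d, g ∈ Vi P k ∧ g ∉ Vi P (k + 1) := by
  classical
  by_contra hcon
  push Not at hcon
  have h1 : ∀ k ≤ d + 1, g ∈ Vi P k := by
    intro k
    induction k with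
    | zero => intro _; exact Vi_zero _
    | succ k ih => intro hk; exact hcon k (by omega) (ih (by omega))
  have := order_le_degree hg h0 P (h1 (d + 1) le_rfl)
  omega

lemma JJ_cancel {ι : Type*} {P : ι → σ → K} {μ : ι → ℕ} {i₀ : σ} (hP : ∀ i, P i i₀ ≠ 0)
    {f : MvPolynomial σ K} (hf : X i₀ * f ∈ JJ P μ) : f ∈ JJ P μ := by
  apply mem_JJ_of_hc
  intro n
  have h1 := hc_mem_JJ hf (n + 1)
  rw [mul_comm, hc_mul_form (isHomogeneous_X _ _)] at h1
  refine mem_JJ_of_form (homogeneousComponent_isHomogeneous n f) fun i => ?_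
  have h2 := Vi_of_mem_JJ h1 i
  refine Vi_pow_mul_cancel (t := 1) (k := 0) (g := X i₀) (Vi_zero _) ?_ ?_
  · intro h3
    have h4 := mem_Vi.1 h3 0 (by simp)
    rw [tr_X, coeff_add, coeff_zero_X, coeff_zero_C, zero_add] at h4
    exact hP i h4
  · rw [pow_one, mul_zero, zero_add, mul_comm]; exact h2

end domain

end Pool.Agent.Helper50.N2
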