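import Mathlib
import Pool.Agent.Helper50.N2.Comp

/-!
# The differential argument in characteristic `p`
-/

set_option autoImplicit false

open MvPolynomial

namespace Pool.Agent.Helper50.N2

open Pool.Agent.Helper50.Dem

section ufd

variable {R : Type*} [CommRing R] [IsDomain R]

lemma prime_pow_dvd {q w : R} (hq : Prime q) {n p : ℕ} (hn : n < p)
    (h : q ^ (n * (p - 1)) ∣ w ^ p) : q ^ n ∣ w := by
  have key : ∀ k ≤ n, q ^ k ∣ w := by
    intro k
    induction k with
    | zero => intro _; rw [pow_zero]; exact one_dvd _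
    | succ k ih =>
      intro hk
      obtain ⟨u, hu⟩ := ih (by omega)
      have h1 : k * p + 1 ≤ n * (p - 1) := by
        obtain ⟨r, rfl⟩ : ∃ r, p = r + 1 := ⟨p - 1, by omega⟩
        obtain ⟨s, rfl⟩ : ∃ s, n = k + 1 + s := ⟨n - (k + 1), by omega⟩
        rw [Nat.add_sub_cancel]
        nlinarith
      have h2 : q ^ (k * p + 1) ∣ w ^ p := (pow_dvd_pow q h1).trans h
      rw [hu, mul_pow, ← pow_mul, pow_add, pow_one] at h2
      have h3 : q ∣ u ^ p := (mul_dvd_mul_iff_left (pow_ne_zero (k * p) hq.ne_zero)).1 h2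
      have h4 := hq.dvd_of_dvd_pow h3
      rw [hu, pow_succ]
      exact mul_dvd_mul_left _ h4
  exact key n le_rfl

/-- a `p`-th power free element dividing a `p`-th power as its `p - 1`-st power -/
lemma dvd_of_pow_dvd_pow [UniqueFactorizationMonoid R] {p : ℕ} {Q w : R} (h0 : Q ≠ 0)
    (hfree : ∀ q : R, Prime q → ¬ q ^ p ∣ Q) (h : Q ^ (p - 1) ∣ w ^ p) : Q ∣ w := by
  rw [UniqueFactorizationMonoid.dvd_iff_emultiplicity_le h0]
  intro q hq
  have hfin : FiniteMultiplicity q Q := FiniteMultiplicity.of_prime_left hq h0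
  rw [hfin.emultiplicity_eq_multiplicity]
  apply le_emultiplicity_of_pow_dvd
  have h1 : q ^ multiplicity q Q ∣ Q := pow_multiplicity_dvd q Q
  have h2 : multiplicity q Q < p := by
    by_contra h3
    push Not at h3
    exact hfree q hq ((pow_dvd_pow q h3).trans h1)
  apply prime_pow_dvd hq h2
  rw [pow_mul]
  exact (pow_dvd_pow_of_dvd h1 _).trans h

end ufd

variable {σ : Type} {K : Type*} [Field K] [IsAlgClosed K] (p : ℕ) [Fact p.Prime] [CharP K p]

/-- one half of the differential argument -/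
lemma coeff_eq_pow {f h G₁ G₂ a b : MvPolynomial σ K} {d k g s A : ℕ} (hf : f.IsHomogeneous d)
    (hf0 : f ≠ 0) (hfree : ∀ q : MvPolynomial σ K, Prime q → ¬ q ^ p ∣ f ^ s)
    (hG₂ : G₂.IsHomogeneous g) (hG₂0 : G₂ ≠ 0) (ha : a.IsHomogeneous A)
    (hA : A + p * g = s * d + p * k) (hrel : IsRelPrime G₁ G₂)
    (heq : f ^ s * h ^ p = a * G₁ ^ p + b * G₂ ^ p)
    (hdeg : d + s * d + p * k < 2 * (p * g)) :
    ∃ w : MvPolynomial σ K, a = f ^ s * w ^ p := by
  have hE : ∀ i, f * pderiv i a - (s : MvPolynomial σ K) * pderiv i f * a = 0 := by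
    intro i
    by_contra hne
    have hpc : ((p : ℕ) : MvPolynomial σ K) = 0 := CharP.cast_eq_zero _ p
    have hd : ∀ u : MvPolynomial σ K, pderiv i (u ^ p) = 0 := by
      intro u
      rw [pderiv_pow, hpc]; ring
    have h1 := congrArg (pderiv i) heq
    rw [pderiv_mul, map_add, pderiv_mul, pderiv_mul, hd, hd, hd, mul_zero, mul_zero, mul_zero,
      add_zero, add_zero, add_zero] at h1
    have h2 : f * pderiv i (f ^ s) = (s : MvPolynomial σ K) * pderiv i f * f ^ s := by
      rw [pderiv_pow]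
      rcases Nat.eq_zero_or_pos s with h3 | h3
      · subst h3; simp
      · obtain ⟨r, rfl⟩ : ∃ r, s = r + 1 := ⟨s - 1, by omega⟩
        rw [Nat.add_sub_cancel, pow_succ]
        ring
    have h3 : (f * pderiv i a - (s : MvPolynomial σ K) * pderiv i f * a) * G₁ ^ p
        = -((f * pderiv i b - (s : MvPolynomial σ K) * pderiv i f * b) * G₂ ^ p) := by
      have h4 := congrArg (f * ·) h1
      beta_reduce at h4
      have h5 := congrArg ((s : MvPolynomial σ K) * pderiv i f * ·) heq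
      beta_reduce at h5
      rw [← mul_assoc, h2] at h4
      linear_combination h5 - h4
    have h4 : G₂ ^ p ∣ f * pderiv i a - (s : MvPolynomial σ K) * pderiv i f * a := by
      have h5 : IsRelPrime (G₂ ^ p) (G₁ ^ p) := (hrel.pow).symm
      apply h5.dvd_of_dvd_mul_right
      rw [h3, dvd_neg]
      exact Dvd.intro_left _ rfl
    obtain ⟨c, hc⟩ := h4
    have hc0 : c ≠ 0 := by
      rintro rfl
      rw [mul_zero] at hc
      exact hne hc
    have h5 : (f * pderiv i a - (s : MvPolynomial σ K) * pderiv i f * a).totalDegree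
        = p * g + c.totalDegree := by
      rw [hc, totalDegree_mul_of_isDomain (pow_ne_zero _ hG₂0) hc0,
        (hG₂.pow p).totalDegree (pow_ne_zero _ hG₂0), mul_comm g p]
    have h6 : (f * pderiv i a - (s : MvPolynomial σ K) * pderiv i f * a).totalDegree ≤ d + A := by
      refine (totalDegree_sub _ _).trans (max_le ?_ ?_)
      · exact ((hf.mul ha.pderiv).totalDegree_le).trans (by omega)
      · have h7 : ((s : MvPolynomial σ K) * pderiv i f * a).IsHomogeneous (0 + (d - 1) + A) := by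
          refine (IsHomogeneous.mul ?_ hf.pderiv).mul ha
          have h8 := isHomogeneous_C σ (s : K)
          rwa [map_natCast] at h8
        exact h7.totalDegree_le.trans (by omega)
    omega
  have hder : ∀ i, pderiv i (a * (f ^ s) ^ (p - 1)) = 0 := by
    intro i
    have hp1 : (((p - 1 : ℕ) : MvPolynomial σ K)) = -1 := by
      have : (((p - 1 + 1 : ℕ)) : MvPolynomial σ K) = 0 := by
        rw [Nat.sub_add_cancel (Fact.out : p.Prime).one_le]; exact CharP.cast_eq_zero _ p
      push_cast at this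
      linear_combination this
    have h1 : f * pderiv i ((f ^ s) ^ (p - 1))
        = -((s : MvPolynomial σ K) * pderiv i f * (f ^ s) ^ (p - 1)) := by
      rw [← pow_mul, pderiv_pow]
      rcases Nat.eq_zero_or_pos (s * (p - 1)) with h3 | h3
      · rcases Nat.mul_eq_zero.1 h3 with h4 | h4
        · subst h4; simp
        · have := (Fact.out : p.Prime).two_le; omega
      · obtain ⟨r, hr⟩ : ∃ r, s * (p - 1) = r + 1 := ⟨s * (p - 1) - 1, by omega⟩
        rw [hr, Nat.add_sub_cancel, ← hr, Nat.cast_mul, hp1, hr, pow_succ]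
        ring
    have h2 : f * pderiv i (a * (f ^ s) ^ (p - 1)) = 0 := by
      rw [pderiv_mul]
      linear_combination (f ^ s) ^ (p - 1) * hE i + a * h1
    rcases mul_eq_zero.1 h2 with h3 | h3
    · exact absurd h3 hf0
    · exact h3
  have hpow := eq_pow_of_pderiv p hder
  rw [pow_one] at hpow
  set w := rt p 1 0 (a * (f ^ s) ^ (p - 1)) with hw
  have hΨ0 : f ^ s ≠ 0 := pow_ne_zero _ hf0
  have hdvd : f ^ s ∣ w := dvd_of_pow_dvd_pow hΨ0 hfree (by
    rw [← hpow]; exact Dvd.intro_left _ rfl)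
  obtain ⟨v, hv⟩ := hdvd
  refine ⟨v, ?_⟩
  rw [hv, mul_pow] at hpow
  have h1 : (f ^ s) ^ p = (f ^ s) ^ (p - 1) * f ^ s := by
    rw [← pow_succ, Nat.sub_add_cancel (Fact.out : p.Prime).one_le]
  rw [h1, mul_assoc, mul_comm a] at hpow
  exact mul_left_cancel₀ (pow_ne_zero _ hΨ0) hpow

/-- **the differential argument** -/
theorem mem_pair_of_pow {f h G₁ G₂ a b : MvPolynomial σ K} {d k g s : ℕ}
    (hf : f.IsHomogeneous d) (hf0 : f ≠ 0)
    (hfree : ∀ q : MvPolynomial σ K, Prime q → ¬ q ^ p ∣ f ^ s) (hh : h.IsHomogeneous k)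
    (hG₁ : G₁.IsHomogeneous g) (hG₁0 : G₁ ≠ 0)
    (hG₂ : G₂.IsHomogeneous g) (hG₂0 : G₂ ≠ 0) (hrel : IsRelPrime G₁ G₂)
    (heq : f ^ s * h ^ p = a * G₁ ^ p + b * G₂ ^ p)
    (hdeg : d + s * d + p * k < 2 * (p * g)) :
    ∃ u v : MvPolynomial σ K, h = u * G₁ + v * G₂ := by
  have hlhs : (f ^ s * h ^ p).IsHomogeneous (d * s + k * p) := (hf.pow s).mul (hh.pow p)
  by_cases hle : g * p ≤ d * s + k * p
  · obtain ⟨a', b', ha', hb', heq'⟩ := exists_form_pair hlhs (hG₁.pow p) (hG₂.pow p) hle hle heq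
    obtain ⟨u, hu⟩ := coeff_eq_pow p hf hf0 hfree hG₂ hG₂0 ha'
      (by rw [mul_comm p g, Nat.sub_add_cancel hle]; ring) hrel heq' hdeg
    obtain ⟨v, hv⟩ := coeff_eq_pow (b := a') p hf hf0 hfree hG₁ hG₁0 hb'
      (by rw [mul_comm p g, Nat.sub_add_cancel hle]; ring) hrel.symm (by rw [heq']; ring) hdeg
    refine ⟨u, v, ?_⟩
    rw [hu, hv] at heq'
    have h1 : f ^ s * h ^ p = f ^ s * (u * G₁ + v * G₂) ^ p := by
      rw [heq', add_pow_char, mul_pow, mul_pow]; ring
    have h2 := mul_left_cancel₀ (pow_ne_zero s hf0) h1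
    have h3 : (h - (u * G₁ + v * G₂)) ^ p = 0 := by rw [sub_pow_char, h2, sub_self]
    exact sub_eq_zero.1 (pow_eq_zero_iff (Fact.out : p.Prime).ne_zero |>.1 h3)
  · push Not at hle
    have h1 := congrArg (homogeneousComponent (d * s + k * p)) heq
    rw [homogeneousComponent_eq_self hlhs, map_add, hc_mul_form_of_lt (hG₁.pow p) _ hle,
      hc_mul_form_of_lt (hG₂.pow p) _ hle, add_zero] at h1
    rcases mul_eq_zero.1 h1 with h2 | h2
    · exact absurd h2 (pow_ne_zero _ hf0)
    · refine ⟨0, 0, ?_⟩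
      rw [pow_eq_zero_iff (Fact.out : p.Prime).ne_zero |>.1 h2]; ring

end Pool.Agent.Helper50.N2
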