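import Mathlib
import Pool.Agent.Helper50.N2.LemmaL

/-!
# Components of powers, and the vanishing statement
-/

set_option autoImplicit false

open MvPolynomial

namespace Pool.Agent.Helper50.N2

open Pool.Agent.Helper50.Dem

section decomp

variable {σ : Type} {K : Type*} [Field K] [IsAlgClosed K] (p : ℕ) [Fact p.Prime] [CharP K p]
  (e : ℕ)

omit [IsAlgClosed K] in
lemma coeff_pow_mul_monomial {a : σ →₀ ℕ} (ha : ∀ i, a i < p ^ e) (g : MvPolynomial σ K)
    (u : σ →₀ ℕ) [Decidable (md (p ^ e) u = a)] :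
    coeff u (g ^ p ^ e * monomial a 1) =
      if md (p ^ e) u = a then coeff (p ^ e • dv (p ^ e) u) (g ^ p ^ e) else 0 := by
  classical
  have hq := q_pos p e
  split_ifs with h
  · conv_lhs => rw [← dv_md (p ^ e) u, h]
    rw [coeff_mul_monomial, mul_one]
  · rw [coeff_mul_monomial']
    split_ifs with h1
    · rw [mul_one]
      by_cases h2 : ∃ i, ¬ p ^ e ∣ (u - a) i
      · obtain ⟨i, hi⟩ := h2
        exact coeff_pow_q_of_not_dvd p e g _ i hi
      · exfalso
        push Not at h2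
        apply h
        ext i
        rw [md_apply]
        have h3 := h2 i
        have h4 := h1 i
        have h5 := ha i
        rw [Finsupp.tsub_apply] at h3
        obtain ⟨c, hc⟩ := h3
        have h6 : u i = a i + p ^ e * c := by omega
        rw [h6, Nat.add_mul_mod_self_left, Nat.mod_eq_of_lt h5]
    · rfl

/-- decomposition of a polynomial into `q`-th powers times small monomials -/
lemma decomp (f : MvPolynomial σ K) : ∃ S : Finset (σ →₀ ℕ), (∀ a ∈ S, ∀ i, a i < p ^ e) ∧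
    f = ∑ a ∈ S, (rt p e a f) ^ p ^ e * monomial a 1 := by
  classical
  have hq := q_pos p e
  refine ⟨f.support.image (md (p ^ e)), ?_, ?_⟩
  · intro a ha i
    obtain ⟨u, _, rfl⟩ := Finset.mem_image.1 ha
    rw [md_apply]
    exact Nat.mod_lt _ hq
  · ext u
    rw [coeff_sum]
    have h1 : ∀ a ∈ f.support.image (md (p ^ e)),
        coeff u ((rt p e a f) ^ p ^ e * monomial a 1) = if md (p ^ e) u = a then coeff u f else 0 := by
      intro a ha
      obtain ⟨v, _, rfl⟩ := Finset.mem_image.1 ha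
      rw [coeff_pow_mul_monomial p e (fun i => by rw [md_apply]; exact Nat.mod_lt _ hq)]
      split_ifs with h
      · rw [coeff_pow_q, rt_spec, ← h, dv_md]
      · rfl
    rw [Finset.sum_congr rfl h1, Finset.sum_ite_eq]
    split_ifs with h2
    · rfl
    · by_contra h3
      exact h2 (Finset.mem_image_of_mem _ (mem_support_iff.2 h3))

end decomp

section stepA

variable {σ : Type} [DecidableEq σ] [Fintype σ] {K : Type*} [Field K] [IsAlgClosed K] (p : ℕ)
  [Fact p.Prime] [CharP K p]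

/-- components of forms vanishing to order `q (m + M)` vanish to order `m` (`M + 2` variables) -/
lemma rt_mem_JJ (e : ℕ) {M : ℕ} (hσ : Fintype.card σ = M + 2) {ι : Type*} {P : ι → σ → K}
    (hP : ∀ i, P i ≠ 0) {m : ι → ℕ} {f : MvPolynomial σ K} {d : ℕ} (hf : f.IsHomogeneous d)
    (hV : ∀ i, f ∈ Vi (P i) (p ^ e * (m i + M))) {a : σ →₀ ℕ} (ha : ∀ i, a i < p ^ e) :
    rt p e a f ∈ JJ P m := by
  have hq := q_pos p e
  by_cases h : ∃ n, p ^ e * n + a.degree = d
  · obtain ⟨n, hn⟩ := h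
    refine mem_JJ_of_form (rt_isHomogeneous p e hf hn) fun i => ?_
    refine rt_mem_Vi p e (hP i) ha hf (hV i) ?_
    intro j hj
    rw [hσ]
    obtain ⟨q', hq'⟩ : ∃ q', p ^ e = q' + 1 := ⟨p ^ e - 1, by omega⟩
    rw [hq']
    have h1 : M + 2 - 1 = M + 1 := by omega
    rw [h1, Nat.add_sub_cancel]
    obtain ⟨t, ht⟩ : ∃ t, m i = j + 1 + t := ⟨m i - (j + 1), by omega⟩
    rw [ht]
    nlinarith
  · have h0 : rt p e a f = 0 := by
      apply rt_ext
      intro c
      rw [coeff_zero, zero_pow (q_pos p e).ne', hf.coeff_eq_zero]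
      intro h1
      apply h
      refine ⟨c.degree, ?_⟩
      rw [← h1, map_add, degree_smul']
    rw [h0]
    exact Ideal.zero_mem _

omit [DecidableEq σ] [Fintype σ] [IsAlgClosed K] [CharP K p] in
/-- the power used -/
lemma exists_s (q : ℕ) {t : ℕ} (ht : 0 < t) : ∃ s, q ≤ t * s ∧ t * s ≤ q + t - 1 := by
  refine ⟨(q + t - 1) / t, ?_, Nat.mul_div_le _ _⟩
  have h1 := Nat.div_add_mod (q + t - 1) t
  have h2 := Nat.mod_lt (q + t - 1) ht
  omega

omit [IsAlgClosed K] [CharP K p] [DecidableEq σ] [Fintype σ] in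
/-- small powers of `t`-th power free forms are `p`-th power free -/
lemma free_pow {f : MvPolynomial σ K} (hf0 : f ≠ 0) {t s d : ℕ} (ht : 0 < t) (htd : t ≤ d)
    (hp : 2 * t * d ≤ p) (hs : t * s ≤ p + t - 1)
    (hfree : ∀ q : MvPolynomial σ K, Prime q → ¬ q ^ t ∣ f) (q : MvPolynomial σ K)
    (hq : Prime q) : ¬ q ^ p ∣ f ^ s := by
  intro hdvd
  have hfin : FiniteMultiplicity q f := FiniteMultiplicity.of_prime_left hq hf0
  obtain ⟨u, hu, hu'⟩ := hfin.exists_eq_pow_mul_and_not_dvd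
  set v := multiplicity q f with hv
  have hvt : v < t := by
    by_contra h1
    push Not at h1
    exact hfree q hq ((pow_dvd_pow q h1).trans (Dvd.intro _ hu.symm))
  have hlt : v * s < p := by
    by_contra h1
    push Not at h1
    have h2 : t * (v * s) ≤ (t - 1) * (p + t - 1) := by
      calc t * (v * s) = v * (t * s) := by ring
        _ ≤ (t - 1) * (p + t - 1) := Nat.mul_le_mul (by omega) hs
    have h3 : t * p ≤ (t - 1) * (p + t - 1) := (Nat.mul_le_mul_left t h1).trans h2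
    obtain ⟨r, rfl⟩ : ∃ r, t = r + 1 := ⟨t - 1, by omega⟩
    have h4 : p + (r + 1) - 1 = p + r := by omega
    rw [h4, Nat.add_sub_cancel] at h3
    have h5 : (r + 1) * (r + 1) ≤ (r + 1) * d := Nat.mul_le_mul_left _ htd
    nlinarith
  have h1 : q ^ (v * s + 1) ∣ f ^ s := (pow_dvd_pow q hlt).trans hdvd
  rw [hu, mul_pow, ← pow_mul, pow_succ] at h1
  have h2 := (mul_dvd_mul_iff_left (pow_ne_zero (v * s) hq.ne_zero)).1 h1
  exact hu' (hq.dvd_of_dvd_pow h2)

/-- **the vanishing statement** -/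
theorem stepA (hσ : Fintype.card σ = 3) {ι : Type*} [Nonempty ι] {P : ι → σ → K}
    (hP : ∀ i, P i ≠ 0) {m : ι → ℕ} {f h G₁ G₂ : MvPolynomial σ K} {d k g t : ℕ} (ht : 0 < t)
    (hp : 2 * t * d ≤ p) (hf : f.IsHomogeneous d) (hf0 : f ≠ 0)
    (hfree : ∀ q : MvPolynomial σ K, Prime q → ¬ q ^ t ∣ f)
    (hV : ∀ i, f ∈ Vi (P i) (t * (m i + 1))) (hh : h.IsHomogeneous k)
    (hG₁ : G₁.IsHomogeneous g) (hG₁0 : G₁ ≠ 0) (hG₂ : G₂.IsHomogeneous g) (hG₂0 : G₂ ≠ 0)
    (hrel : IsRelPrime G₁ G₂)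
    (hJ : ∀ j ∈ JJ P m, ∃ u v : MvPolynomial σ K, h * j = u * G₁ + v * G₂)
    (hdeg : k + d / t + 1 ≤ 2 * g) : ∃ u v : MvPolynomial σ K, h = u * G₁ + v * G₂ := by
  classical
  have hp2 := (Fact.out : p.Prime).two_le
  obtain ⟨s, hs1, hs2⟩ := exists_s p ht
  have htd : t ≤ d := by
    obtain ⟨i⟩ := ‹Nonempty ι›
    have h1 := order_le_degree hf hf0 _ (hV i)
    nlinarith
  have hfs : (f ^ s).IsHomogeneous (d * s) := hf.pow s
  have hVs : ∀ i, f ^ s ∈ Vi (P i) (p * (m i + 1)) := by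
    intro i
    refine Vi_mono ?_ (Vi_pow (hV i) s)
    calc p * (m i + 1) ≤ (t * s) * (m i + 1) := Nat.mul_le_mul_right _ hs1
      _ = s * (t * (m i + 1)) := by ring
  obtain ⟨S, hS1, hS2⟩ := decomp p 1 (f ^ s)
  have hcomp : ∀ a ∈ S, ∃ u v : MvPolynomial σ K,
      h * rt p 1 a (f ^ s) = u * G₁ + v * G₂ := fun a ha =>
    hJ _ (rt_mem_JJ p 1 (M := 1) hσ hP hfs (by rw [pow_one]; exact hVs) (hS1 a ha))
  choose! u v huv using hcomp
  have heq : f ^ s * h ^ p = (∑ a ∈ S, u a ^ p * monomial a 1) * G₁ ^ p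
      + (∑ a ∈ S, v a ^ p * monomial a 1) * G₂ ^ p := by
    conv_lhs => rw [hS2]
    rw [Finset.sum_mul, Finset.sum_mul, Finset.sum_mul, ← Finset.sum_add_distrib]
    apply Finset.sum_congr rfl
    intro a ha
    have h1 : (h * rt p 1 a (f ^ s)) ^ p = (u a) ^ p * G₁ ^ p + (v a) ^ p * G₂ ^ p := by
      rw [huv a ha, add_pow_char, mul_pow, mul_pow]
    rw [pow_one]
    rw [mul_pow] at h1
    linear_combination (monomial a (1 : K)) * h1
  refine mem_pair_of_pow p hf hf0 (free_pow p hf0 ht htd hp hs2 hfree) hh hG₁ hG₁0 hG₂ hG₂0 hrel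
    heq ?_
  have h1 : d + 1 ≤ t * (d / t + 1) := by
    have h2 := Nat.div_add_mod d t
    have h3 := Nat.mod_lt d ht
    rw [Nat.mul_add]
    omega
  have h2 : t * (d + s * d) < t * (p * (d / t + 1)) := by
    have h3 : t * (d + s * d) ≤ t * d + (p + t - 1) * d := by
      calc t * (d + s * d) = t * d + (t * s) * d := by ring
        _ ≤ _ := by gcongr
    have h4 : p * (d + 1) ≤ t * (p * (d / t + 1)) := by
      calc p * (d + 1) ≤ p * (t * (d / t + 1)) := Nat.mul_le_mul_left _ h1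
        _ = _ := by ring
    have h5 : t * d + (p + t - 1) * d < p * (d + 1) := by
      obtain ⟨r, rfl⟩ : ∃ r, t = r + 1 := ⟨t - 1, by omega⟩
      have h6 : p + (r + 1) - 1 = p + r := by omega
      rw [h6]
      nlinarith
    omega
  have h3 := Nat.lt_of_mul_lt_mul_left h2
  have h4 : p * (k + d / t + 1) ≤ p * (2 * g) := Nat.mul_le_mul_left _ hdeg
  nlinarith

end stepA

end Pool.Agent.Helper50.N2
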