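import Mathlib
import Pool.Agent.Helper50.N2.StepA

/-!
# Explicit duality for a complete intersection of two products of linear forms
-/

set_option autoImplicit false

open MvPolynomial

namespace Pool.Agent.Helper50.N2

open Pool.Agent.Helper50.Dem

section algebra

variable {R : Type*} [CommRing R] {K : Type*} [Field K] [Algebra K R]

/-- the quotient by `y ^ i` of the homogenisation of degree `g` of the polynomial with
coefficients `a` -/
noncomputable def HH (a : ℕ → K) (x y : R) (g i : ℕ) : R :=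
  ∑ α ∈ Finset.range (g + 1 - i), algebraMap K R (a (i + α)) * x ^ (g - i - α) * y ^ α

lemma HH_top {a : ℕ → K} {x y : R} {g : ℕ} (ha : a g = 1) : HH a x y g g = 1 := by
  unfold HH
  have h1 : g + 1 - g = 1 := by omega
  rw [h1, Finset.sum_range_one, add_zero, ha, map_one, Nat.sub_self, Nat.sub_zero]
  simp

lemma HH_succ {a : ℕ → K} {x y : R} {g i : ℕ} (hi : i < g) :
    HH a x y g i = algebraMap K R (a i) * x ^ (g - i) + y * HH a x y g (i + 1) := by
  unfold HH
  have h1 : g + 1 - i = (g + 1 - (i + 1)) + 1 := by omega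
  rw [h1, Finset.sum_range_succ', Finset.mul_sum, add_zero, Nat.sub_zero, pow_zero, mul_one,
    add_comm]
  congr 1
  apply Finset.sum_congr rfl
  intro α _
  have h2 : i + (α + 1) = i + 1 + α := by omega
  have h3 : g - i - (α + 1) = g - (i + 1) - α := by omega
  rw [h2, h3, pow_succ]
  ring

/-- the element attached to a functional -/
noncomputable def hf (ψ : R →ₗ[K] K) (x y z : R) (a b : ℕ → K) (g e k : ℕ) : R :=
  ∑ i ∈ Finset.range g, ∑ j ∈ Finset.range g, algebraMap K R (ψ (y ^ i * z ^ j)) *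
    (x ^ (i + j + k - e) * HH a x y g (i + 1) * HH b x z g (j + 1))

lemma hf_swap (ψ : R →ₗ[K] K) (x y z : R) (a b : ℕ → K) (g e k : ℕ) :
    hf ψ x y z a b g e k = hf ψ x z y b a g e k := by
  unfold hf
  rw [Finset.sum_comm]
  apply Finset.sum_congr rfl
  intro j _
  apply Finset.sum_congr rfl
  intro i _
  rw [mul_comm (y ^ i), add_comm i j]
  ring

lemma hf_zero (x y z : R) (a b : ℕ → K) (g e k : ℕ) :
    hf (0 : R →ₗ[K] K) x y z a b g e k = 0 := by
  unfold hf
  simp

lemma hf_add (ψ φ : R →ₗ[K] K) (x y z : R) (a b : ℕ → K) (g e k : ℕ) :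
    hf (ψ + φ) x y z a b g e k = hf ψ x y z a b g e k + hf φ x y z a b g e k := by
  unfold hf
  simp only [LinearMap.add_apply, map_add, add_mul, Finset.sum_add_distrib]

lemma hf_smul (c : K) (ψ : R →ₗ[K] K) (x y z : R) (a b : ℕ → K) (g e k : ℕ) :
    hf (c • ψ) x y z a b g e k = algebraMap K R c * hf ψ x y z a b g e k := by
  unfold hf
  simp only [LinearMap.smul_apply, smul_eq_mul, map_mul, Finset.mul_sum, mul_assoc]

/-- the vanishing condition at level `k` -/
def VV (ψ : R →ₗ[K] K) (y z : R) (e k : ℕ) : Prop :=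
  ∀ i j : ℕ, i + j + k < e → ψ (y ^ i * z ^ j) = 0

/-- the functional `u ↦ ψ (f u)` -/
noncomputable def cm (ψ : R →ₗ[K] K) (f : R) : R →ₗ[K] K := ψ ∘ₗ LinearMap.mulLeft K f

lemma cm_apply (ψ : R →ₗ[K] K) (f u : R) : cm ψ f u = ψ (f * u) := rfl

lemma hf_x {ψ : R →ₗ[K] K} {x y z : R} (a b : ℕ → K) (g : ℕ) {e k : ℕ}
    (hx : ∀ u, ψ (x * u) = ψ u) (hV : VV ψ y z e k) :
    x * hf ψ x y z a b g e k = hf (cm ψ x) x y z a b g e (k + 1) := by
  unfold hf
  rw [Finset.mul_sum]
  apply Finset.sum_congr rfl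
  intro i _
  rw [Finset.mul_sum]
  apply Finset.sum_congr rfl
  intro j _
  rw [cm_apply, hx]
  by_cases h : i + j + k < e
  · rw [hV i j h]; simp
  · have h1 : i + j + (k + 1) - e = (i + j + k - e) + 1 := by omega
    rw [h1, pow_succ]
    ring

lemma psi_HH {ψ : R →ₗ[K] K} {x y z : R} {a : ℕ → K} {g : ℕ}
    (hx : ∀ u, ψ (x * u) = ψ u) (ha : a g = 1)
    (hG : ∀ u, ψ (HH a x y g 0 * u) = 0) (n j : ℕ) :
    ψ (y ^ (g + n) * z ^ j) + ∑ i ∈ Finset.range g, a i * ψ (y ^ (i + n) * z ^ j) = 0 := by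
  have hxn : ∀ (n : ℕ) (u : R), ψ (x ^ n * u) = ψ u := by
    intro n
    induction n with
    | zero => intro u; rw [pow_zero, one_mul]
    | succ n ih => intro u; rw [pow_succ, mul_assoc, ih, hx]
  have h1 := hG (y ^ n * z ^ j)
  unfold HH at h1
  rw [Nat.sub_zero, Finset.sum_range_succ, add_mul, map_add, Finset.sum_mul, map_sum] at h1
  have h2 : ∀ (α : ℕ), ψ (algebraMap K R (a (0 + α)) * x ^ (g - 0 - α) * y ^ α * (y ^ n * z ^ j))
      = a α * ψ (y ^ (α + n) * z ^ j) := by
    intro α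
    have h3 : algebraMap K R (a (0 + α)) * x ^ (g - 0 - α) * y ^ α * (y ^ n * z ^ j)
        = a α • (x ^ (g - α) * (y ^ (α + n) * z ^ j)) := by
      rw [Algebra.smul_def, zero_add, Nat.sub_zero, pow_add]
      ring
    rw [h3, map_smul, hxn, smul_eq_mul]
  rw [h2, ha, one_mul] at h1
  simp only [h2] at h1
  rw [add_comm]
  exact h1

lemma hf_y {ψ : R →ₗ[K] K} {x y z : R} {a : ℕ → K} (b : ℕ → K) {g e k : ℕ}
    (hx : ∀ u, ψ (x * u) = ψ u) (hV : VV ψ y z e k) (ha : a g = 1)
    (hG : ∀ u, ψ (HH a x y g 0 * u) = 0) :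
    ∃ c : R, y * hf ψ x y z a b g e k
      = hf (cm ψ y) x y z a b g e (k + 1) + c * HH a x y g 0 := by
  set S : ℕ → ℕ → R := fun i j => algebraMap K R (ψ (y ^ i * z ^ j)) *
    (x ^ (i + j + k - e) * HH a x y g i * HH b x z g (j + 1)) with hS
  have h1 : hf (cm ψ y) x y z a b g e (k + 1)
      = ∑ j ∈ Finset.range g, ∑ i ∈ Finset.range g, S (i + 1) j := by
    unfold hf
    rw [Finset.sum_comm]
    apply Finset.sum_congr rfl
    intro j _
    apply Finset.sum_congr rfl
    intro i _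
    rw [cm_apply, hS]
    beta_reduce
    have e1 : y * (y ^ i * z ^ j) = y ^ (i + 1) * z ^ j := by rw [pow_succ]; ring
    have e2 : i + j + (k + 1) - e = i + 1 + j + k - e := by omega
    rw [e1, e2]
  have h2 : y * hf ψ x y z a b g e k = ∑ j ∈ Finset.range g, ∑ i ∈ Finset.range g,
      (S i j - algebraMap K R (a i * ψ (y ^ i * z ^ j)) *
        (x ^ (g + j + k - e) * HH b x z g (j + 1))) := by
    unfold hf
    rw [Finset.sum_comm, Finset.mul_sum]
    apply Finset.sum_congr rfl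
    intro j _
    rw [Finset.mul_sum]
    apply Finset.sum_congr rfl
    intro i hi
    rw [Finset.mem_range] at hi
    rw [hS]
    beta_reduce
    rw [HH_succ hi]
    by_cases h : i + j + k < e
    · rw [hV i j h]; simp
    · have e1 : g + j + k - e = (i + j + k - e) + (g - i) := by omega
      rw [e1, pow_add, (algebraMap K R).map_mul]
      ring
  have h3 : ∀ j, ∑ i ∈ Finset.range g, S (i + 1) j
      = ∑ i ∈ Finset.range g, S i j + S g j - S 0 j := by
    intro j
    rw [eq_sub_iff_add_eq, ← Finset.sum_range_succ' (fun i => S i j), Finset.sum_range_succ]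
  refine ⟨∑ j ∈ Finset.range g, algebraMap K R (ψ (z ^ j)) *
    (x ^ (j + k - e) * HH b x z g (j + 1)), ?_⟩
  rw [h1, h2, Finset.sum_mul, ← Finset.sum_add_distrib]
  apply Finset.sum_congr rfl
  intro j _
  rw [h3, Finset.sum_sub_distrib, ← Finset.sum_mul, ← map_sum]
  have h4 := psi_HH (z := z) hx ha hG 0 j
  simp only [add_zero] at h4
  have h5 : ∑ i ∈ Finset.range g, a i * ψ (y ^ i * z ^ j) = - ψ (y ^ g * z ^ j) := by
    linear_combination h4
  rw [h5, map_neg, hS]
  beta_reduce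
  rw [HH_top ha, pow_zero, one_mul, zero_add]
  ring

lemma hf_z {ψ : R →ₗ[K] K} {x y z : R} (a : ℕ → K) {b : ℕ → K} {g e k : ℕ}
    (hx : ∀ u, ψ (x * u) = ψ u) (hV : VV ψ y z e k) (hb : b g = 1)
    (hG : ∀ u, ψ (HH b x z g 0 * u) = 0) :
    ∃ c : R, z * hf ψ x y z a b g e k
      = hf (cm ψ z) x y z a b g e (k + 1) + c * HH b x z g 0 := by
  rw [hf_swap, hf_swap (cm ψ z)]
  refine hf_y a hx ?_ hb hG
  intro i j hij
  rw [mul_comm]
  exact hV j i (by omega)

end algebra

end Pool.Agent.Helper50.N2
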