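import Mathlib
import Pool.Agent.Helper50.N2.Dual
import Pool.Agent.Helper50.Dem.Reduce

/-!
# Explicit duality in the polynomial ring in three variables
-/

set_option autoImplicit false

open MvPolynomial

namespace Pool.Agent.Helper50.N2

open Pool.Agent.Helper50.Dem

variable {K : Type*} [Field K]

/-- conditions on a functional -/
structure Cond (ψ : MvPolynomial (Fin 3) K →ₗ[K] K) (a b : ℕ → K) (g e k : ℕ) : Prop where
  hx : ∀ u, ψ (X 0 * u) = ψ u
  hV : VV ψ (X 1) (X 2) e k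
  hG1 : ∀ u, ψ (HH a (X 0) (X 1) g 0 * u) = 0
  hG2 : ∀ u, ψ (HH b (X 0) (X 2) g 0 * u) = 0

lemma Cond.step {ψ : MvPolynomial (Fin 3) K →ₗ[K] K} {a b : ℕ → K} {g e k : ℕ}
    (h : Cond ψ a b g e k) (ha : a g = 1) (hb : b g = 1) (l : Fin 3) :
    Cond (cm ψ (X l)) a b g e (k + 1) ∧ ∃ c₁ c₂ : MvPolynomial (Fin 3) K,
      X l * hf ψ (X 0) (X 1) (X 2) a b g e k = hf (cm ψ (X l)) (X 0) (X 1) (X 2) a b g e (k + 1)
        + c₁ * HH a (X 0) (X 1) g 0 + c₂ * HH b (X 0) (X 2) g 0 := by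
  refine ⟨⟨?_, ?_, ?_, ?_⟩, ?_⟩
  · intro u
    rw [cm_apply, cm_apply, mul_left_comm, h.hx]
  · intro i j hij
    rw [cm_apply]
    fin_cases l
    · exact (h.hx _).trans (h.hV i j (by omega))
    · have h1 : (X 1 : MvPolynomial (Fin 3) K) * (X 1 ^ i * X 2 ^ j) = X 1 ^ (i + 1) * X 2 ^ j := by
        rw [pow_succ]; ring
      exact (congrArg ψ h1).trans (h.hV (i + 1) j (by omega))
    · have h1 : (X 2 : MvPolynomial (Fin 3) K) * (X 1 ^ i * X 2 ^ j) = X 1 ^ i * X 2 ^ (j + 1) := by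
        rw [pow_succ]; ring
      exact (congrArg ψ h1).trans (h.hV i (j + 1) (by omega))
  · intro u
    rw [cm_apply, mul_left_comm, h.hG1]
  · intro u
    rw [cm_apply, mul_left_comm, h.hG2]
  · fin_cases l
    · refine ⟨0, 0, ?_⟩
      rw [zero_mul, zero_mul, add_zero, add_zero]
      exact hf_x a b g h.hx h.hV
    · obtain ⟨c, hc⟩ := hf_y b h.hx h.hV ha h.hG1
      refine ⟨c, 0, ?_⟩
      rw [zero_mul, add_zero]
      exact hc
    · obtain ⟨c, hc⟩ := hf_z a h.hx h.hV hb h.hG2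
      refine ⟨0, c, ?_⟩
      rw [zero_mul, add_zero]
      exact hc

lemma cm_cm (ψ : MvPolynomial (Fin 3) K →ₗ[K] K) (f g : MvPolynomial (Fin 3) K) :
    cm (cm ψ f) g = cm ψ (f * g) := by
  ext u
  simp only [LinearMap.comp_apply, cm_apply, mul_assoc]

lemma cm_one (ψ : MvPolynomial (Fin 3) K →ₗ[K] K) : cm ψ 1 = ψ := by
  ext u
  simp only [LinearMap.comp_apply, cm_apply, one_mul]

lemma hf_monomial {a b : ℕ → K} {g e : ℕ} (ha : a g = 1) (hb : b g = 1) (n : ℕ) :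
    ∀ (u : Fin 3 →₀ ℕ), u.degree = n → ∀ (ψ : MvPolynomial (Fin 3) K →ₗ[K] K) (k : ℕ),
    Cond ψ a b g e k →
    Cond (cm ψ (monomial u 1)) a b g e (k + n) ∧ ∃ c₁ c₂ : MvPolynomial (Fin 3) K,
      monomial u 1 * hf ψ (X 0) (X 1) (X 2) a b g e k
        = hf (cm ψ (monomial u 1)) (X 0) (X 1) (X 2) a b g e (k + n)
        + c₁ * HH a (X 0) (X 1) g 0 + c₂ * HH b (X 0) (X 2) g 0 := by
  induction n with
  | zero =>
    intro u hu ψ k h
    have hu0 : u = 0 := (Finsupp.degree_eq_zero_iff u).1 hu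
    subst hu0
    have h1 : (monomial 0 (1 : K) : MvPolynomial (Fin 3) K) = 1 := rfl
    rw [h1, cm_one, add_zero]
    exact ⟨h, 0, 0, by ring⟩
  | succ n ih =>
    intro u hu ψ k h
    obtain ⟨l, hl⟩ : ∃ l, u l ≠ 0 := by
      by_contra hcon
      push Not at hcon
      have : u = 0 := Finsupp.ext hcon
      rw [this, map_zero] at hu
      omega
    set v := u - Finsupp.single l 1 with hv
    have h2 : v + Finsupp.single l 1 = u := by
      ext j
      by_cases hj : l = j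
      · subst hj; simp [hv]; omega
      · simp [hv, Finsupp.single_eq_of_ne (Ne.symm hj)]
    have hvn : v.degree = n := by
      have h3 := congrArg Finsupp.degree h2
      rw [map_add, Finsupp.degree_single, hu] at h3
      omega
    have hmon : (monomial u (1 : K) : MvPolynomial (Fin 3) K) = monomial v 1 * X l := by
      rw [X, monomial_mul, mul_one, h2]
    obtain ⟨hC, c₁, c₂, hc⟩ := ih v hvn ψ k h
    obtain ⟨hC', d₁, d₂, hd⟩ := hC.step ha hb l
    rw [cm_cm, ← hmon] at hC' hd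
    refine ⟨hC', X l * c₁ + d₁, X l * c₂ + d₂, ?_⟩
    have h4 : monomial u (1 : K) * hf ψ (X 0) (X 1) (X 2) a b g e k
        = X l * (monomial v 1 * hf ψ (X 0) (X 1) (X 2) a b g e k) := by rw [hmon]; ring
    rw [h4, hc, mul_add, mul_add, hd, ← add_assoc k n 1]
    ring

lemma hf_form {a b : ℕ → K} {g e : ℕ} (ha : a g = 1) (hb : b g = 1)
    {ψ : MvPolynomial (Fin 3) K →ₗ[K] K} {k : ℕ} (h : Cond ψ a b g e k)
    {f : MvPolynomial (Fin 3) K} {n : ℕ} (hfn : f.IsHomogeneous n) :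
    ∃ c₁ c₂ : MvPolynomial (Fin 3) K,
      f * hf ψ (X 0) (X 1) (X 2) a b g e k = hf (cm ψ f) (X 0) (X 1) (X 2) a b g e (k + n)
        + c₁ * HH a (X 0) (X 1) g 0 + c₂ * HH b (X 0) (X 2) g 0 := by
  rw [form_eq_sum hfn]
  apply Finset.sum_induction (fun c => C (coeff c f) * monomial c (1 : K))
    (fun f' => ∃ c₁ c₂ : MvPolynomial (Fin 3) K,
      f' * hf ψ (X 0) (X 1) (X 2) a b g e k = hf (cm ψ f') (X 0) (X 1) (X 2) a b g e (k + n)
        + c₁ * HH a (X 0) (X 1) g 0 + c₂ * HH b (X 0) (X 2) g 0)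
  · rintro u v ⟨c₁, c₂, hc⟩ ⟨d₁, d₂, hd⟩
    refine ⟨c₁ + d₁, c₂ + d₂, ?_⟩
    have h1 : cm ψ (u + v) = cm ψ u + cm ψ v := by
      ext w
      simp only [LinearMap.comp_apply, cm_apply, LinearMap.add_apply, add_mul, map_add]
    rw [h1, hf_add, add_mul, hc, hd]
    ring
  · refine ⟨0, 0, ?_⟩
    have h1 : cm ψ 0 = 0 := by
      ext w
      simp only [LinearMap.comp_apply, cm_apply, zero_mul, map_zero, LinearMap.zero_apply]
    rw [h1, hf_zero]
    ring
  · intro u hu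
    obtain ⟨_, c₁, c₂, hc⟩ := hf_monomial (e := e) ha hb n u (mem_Ex.1 hu) ψ k h
    refine ⟨C (coeff u f) * c₁, C (coeff u f) * c₂, ?_⟩
    have h1 : cm ψ (C (coeff u f) * monomial u 1) = coeff u f • cm ψ (monomial u 1) := by
      ext w
      simp only [LinearMap.comp_apply, cm_apply, LinearMap.smul_apply, C_mul', smul_mul_assoc,
        map_smul]
    rw [h1, hf_smul, mul_assoc, hc, algebraMap_eq]
    ring

/-- products with elements of an ideal killed by the functional -/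
lemma hf_mul_mem {a b : ℕ → K} {g e : ℕ} (ha : a g = 1) (hb : b g = 1)
    {ψ : MvPolynomial (Fin 3) K →ₗ[K] K} {k : ℕ} (h : Cond ψ a b g e k)
    {J : Ideal (MvPolynomial (Fin 3) K)} (hJ : ∀ j ∈ J, ψ j = 0)
    (hJh : ∀ j ∈ J, ∀ n, homogeneousComponent n j ∈ J) :
    ∀ j ∈ J, ∃ c₁ c₂ : MvPolynomial (Fin 3) K, hf ψ (X 0) (X 1) (X 2) a b g e k * j
      = c₁ * HH a (X 0) (X 1) g 0 + c₂ * HH b (X 0) (X 2) g 0 := by
  intro j hj
  rw [← sum_homogeneousComponent j]
  apply Finset.sum_induction (fun i => homogeneousComponent i j)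
    (fun f' => ∃ c₁ c₂ : MvPolynomial (Fin 3) K, hf ψ (X 0) (X 1) (X 2) a b g e k * f'
      = c₁ * HH a (X 0) (X 1) g 0 + c₂ * HH b (X 0) (X 2) g 0)
  · rintro u v ⟨c₁, c₂, hc⟩ ⟨d₁, d₂, hd⟩
    exact ⟨c₁ + d₁, c₂ + d₂, by rw [mul_add, hc, hd]; ring⟩
  · exact ⟨0, 0, by ring⟩
  · intro n _
    obtain ⟨c₁, c₂, hc⟩ := hf_form ha hb h (homogeneousComponent_isHomogeneous n j)
    refine ⟨c₁, c₂, ?_⟩
    have h1 : cm ψ (homogeneousComponent n j) = 0 := by
      ext w
      simp only [LinearMap.comp_apply, cm_apply, LinearMap.zero_apply]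
      exact hJ _ (Ideal.mul_mem_right _ _ (hJh j hj n))
    rw [mul_comm, hc, h1, hf_zero, zero_add]

lemma HH_isHomogeneous (a : ℕ → K) (l : Fin 3) {g i : ℕ} (hi : i ≤ g) :
    (HH a (X 0) (X l) g i : MvPolynomial (Fin 3) K).IsHomogeneous (g - i) := by
  unfold HH
  apply IsHomogeneous.sum
  intro α hα
  rw [Finset.mem_range] at hα
  have h1 := ((isHomogeneous_C (Fin 3) (a (i + α))).mul
    (isHomogeneous_X_pow (R := K) (0 : Fin 3) (g - i - α))).mul (isHomogeneous_X_pow (R := K) l α)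
  have h2 : 0 + (g - i - α) + α = g - i := by omega
  rw [h2] at h1
  exact h1

lemma hf_isHomogeneous {a b : ℕ → K} {g e : ℕ} {ψ : MvPolynomial (Fin 3) K →ₗ[K] K}
    (h : Cond ψ a b g e 0) :
    (hf ψ (X 0) (X 1) (X 2) a b g e 0).IsHomogeneous (2 * g - 2 - e) := by
  unfold hf
  apply IsHomogeneous.sum
  intro i hi
  apply IsHomogeneous.sum
  intro j hj
  rw [Finset.mem_range] at hi hj
  by_cases hij : i + j < e
  · rw [h.hV i j (by omega), map_zero, zero_mul]
    exact isHomogeneous_zero _ _ _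
  · have h1 := (isHomogeneous_C (Fin 3) (ψ (X 1 ^ i * X 2 ^ j))).mul
      (((isHomogeneous_X_pow (R := K) (0 : Fin 3) (i + j + 0 - e)).mul
        (HH_isHomogeneous a 1 (g := g) (i := i + 1) (by omega))).mul
        (HH_isHomogeneous b 2 (g := g) (i := j + 1) (by omega)))
    have h2 : 0 + (i + j + 0 - e + (g - (i + 1)) + (g - (j + 1))) = 2 * g - 2 - e := by omega
    rw [h2] at h1
    exact h1

lemma z0_X0 : z0 (0 : Fin 3) (X 0 : MvPolynomial (Fin 3) K) = 0 := by simp [z0]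

lemma z0_X {l : Fin 3} (hl : l ≠ 0) : z0 (0 : Fin 3) (X l : MvPolynomial (Fin 3) K) = X l := by
  simp [z0, hl]

lemma z0_HH {a : ℕ → K} {l : Fin 3} (hl : l ≠ 0) {g i : ℕ} (ha : a g = 1) (hi : i ≤ g) :
    z0 (0 : Fin 3) (HH a (X 0) (X l) g i : MvPolynomial (Fin 3) K) = X l ^ (g - i) := by
  unfold HH
  rw [map_sum]
  have h1 : g + 1 - i = (g - i) + 1 := by omega
  rw [h1, Finset.sum_range_succ, Finset.sum_eq_zero]
  · have h2 : i + (g - i) = g := by omega
    rw [h2, ha, map_one, Nat.sub_self, pow_zero, one_mul, one_mul, map_pow, z0_X hl, zero_add]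
  · intro α hα
    rw [Finset.mem_range] at hα
    rw [map_mul, map_mul, map_pow, z0_X0, zero_pow (by omega), mul_zero, zero_mul]

lemma coeff_mul_X_pow_of_lt {u : MvPolynomial (Fin 3) K} {l : Fin 3} {g : ℕ} {v : Fin 3 →₀ ℕ}
    (h : v l < g) : coeff v (u * X l ^ g) = 0 := by
  rw [X_pow_eq_monomial, coeff_mul_monomial', if_neg]
  intro h1
  have h2 := h1 l
  rw [Finsupp.single_eq_same] at h2
  omega

/-- the element attached to a functional is not in the complete intersection -/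
lemma hf_notMem {a b : ℕ → K} {g e : ℕ} (ha : a g = 1) (hb : b g = 1)
    {ψ : MvPolynomial (Fin 3) K →ₗ[K] K} (h : Cond ψ a b g e 0) {i₀ j₀ : ℕ} (hi₀ : i₀ < g)
    (hj₀ : j₀ < g) (he : i₀ + j₀ = e) (hne : ψ (X 1 ^ i₀ * X 2 ^ j₀) ≠ 0) :
    ¬ ∃ c₁ c₂ : MvPolynomial (Fin 3) K, hf ψ (X 0) (X 1) (X 2) a b g e 0
      = c₁ * HH a (X 0) (X 1) g 0 + c₂ * HH b (X 0) (X 2) g 0 := by
  classical
  rintro ⟨c₁, c₂, hc⟩
  set v : Fin 3 →₀ ℕ := Finsupp.single 1 (g - 1 - i₀) + Finsupp.single 2 (g - 1 - j₀) with hv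
  have hv1 : v 1 = g - 1 - i₀ := by simp [hv]
  have hv2 : v 2 = g - 1 - j₀ := by simp [hv]
  have h1 := congrArg (fun w => coeff v (z0 (0 : Fin 3) w)) hc
  beta_reduce at h1
  rw [map_add, map_mul, map_mul, z0_HH (by decide) ha (Nat.zero_le _),
    z0_HH (by decide) hb (Nat.zero_le _), coeff_add, Nat.sub_zero,
    coeff_mul_X_pow_of_lt (by omega), coeff_mul_X_pow_of_lt (by omega), add_zero] at h1
  unfold hf at h1
  simp only [map_sum, coeff_sum] at h1
  have hterm : ∀ i ∈ Finset.range g, ∀ j ∈ Finset.range g,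
      coeff v (z0 (0 : Fin 3) (algebraMap K (MvPolynomial (Fin 3) K) (ψ (X 1 ^ i * X 2 ^ j)) *
        (X 0 ^ (i + j + 0 - e) * HH a (X 0) (X 1) g (i + 1) * HH b (X 0) (X 2) g (j + 1))))
      = if i = i₀ ∧ j = j₀ then ψ (X 1 ^ i₀ * X 2 ^ j₀) else 0 := by
    intro i hi j hj
    rw [Finset.mem_range] at hi hj
    have hV := h.hV i j
    have hcoe : i = i₀ ∧ j = j₀ → ψ (X 1 ^ i * X 2 ^ j) = ψ (X 1 ^ i₀ * X 2 ^ j₀) := by
      rintro ⟨rfl, rfl⟩; rfl
    generalize ψ (X 1 ^ i * X 2 ^ j) = c at hV hcoe ⊢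
    rw [map_mul, map_mul, map_mul, AlgHom.commutes, map_pow, z0_X0,
      z0_HH (by decide) ha (by omega), z0_HH (by decide) hb (by omega), algebraMap_eq,
      coeff_C_mul]
    by_cases hij : i + j < e
    · rw [hV (by omega), zero_mul, if_neg]
      rintro ⟨rfl, rfl⟩
      omega
    · by_cases hij' : i + j = e
      · have h2 : i + j + 0 - e = 0 := by omega
        rw [h2, pow_zero, one_mul, X_pow_eq_monomial, X_pow_eq_monomial, monomial_mul, mul_one,
          coeff_monomial]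
        by_cases h3 : i = i₀
        · have h4 : j = j₀ := by omega
          rw [hcoe ⟨h3, h4⟩]
          subst h3; subst h4
          have h5 : g - (i + 1) = g - 1 - i := by omega
          have h6 : g - (j + 1) = g - 1 - j := by omega
          rw [if_pos (by rw [hv, h5, h6]), if_pos ⟨rfl, rfl⟩, mul_one]
        · rw [if_neg, if_neg (fun h4 => h3 h4.1), mul_zero]
          intro h4
          have h5 := DFunLike.congr_fun h4 1
          rw [hv1] at h5
          simp at h5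
          omega
      · have h2 : i + j + 0 - e ≠ 0 := by omega
        rw [zero_pow h2, zero_mul, zero_mul, coeff_zero, mul_zero, if_neg]
        rintro ⟨rfl, rfl⟩
        omega
  rw [Finset.sum_congr rfl fun i hi => Finset.sum_congr rfl fun j hj => hterm i hi j hj] at h1
  rw [Finset.sum_eq_single i₀, Finset.sum_eq_single j₀] at h1
  · rw [if_pos ⟨rfl, rfl⟩] at h1
    exact hne h1
  · intro j _ hj
    rw [if_neg]; rintro ⟨_, h2⟩; exact hj h2
  · intro h2; exact absurd (Finset.mem_range.2 hj₀) h2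
  · intro i _ hi
    apply Finset.sum_eq_zero
    intro j _
    rw [if_neg]; rintro ⟨h2, _⟩; exact hi h2
  · intro h2; exact absurd (Finset.mem_range.2 hi₀) h2

end Pool.Agent.Helper50.N2
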