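import Mathlib
import Pool.Agent.Helper50.N2.Dual2

/-!
# The ideal of the fat points is generated in small degrees
-/

set_option autoImplicit false

open MvPolynomial

namespace Pool.Agent.Helper50.N2

open Pool.Agent.Helper50.Dem

section prod

variable {K : Type*} [Field K]

lemma natDegree_linear_pow (s : K) (n : ℕ) :
    ((Polynomial.X - Polynomial.C s) ^ n).natDegree ≤ n := by
  rw [Polynomial.natDegree_pow, Polynomial.natDegree_X_sub_C, mul_one]

lemma homogenize_linear_pow (s : K) (n : ℕ) :
    Polynomial.homogenize ((Polynomial.X - Polynomial.C s) ^ n) n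
      = (X 0 - C s * X 1 : MvPolynomial (Fin 2) K) ^ n := by
  induction n with
  | zero => simp
  | succ n ih =>
    rw [pow_succ, Polynomial.homogenize_mul _ _ (m := n) (n := 1), ih, pow_succ]
    · congr 1
      rw [Polynomial.homogenize_sub, Polynomial.homogenize_X one_ne_zero, Polynomial.homogenize_C]
      simp
    · exact natDegree_linear_pow s n
    · exact Polynomial.natDegree_X_sub_C_le s

variable {ι : Type*} [Fintype ι]

/-- the univariate polynomial -/
noncomputable def AA (s : ι → K) (m : ι → ℕ) : Polynomial K :=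
  ∏ i, (Polynomial.X - Polynomial.C (s i)) ^ m i

lemma AA_top (s : ι → K) (m : ι → ℕ) : (AA s m).coeff (∑ i, m i) = 1 := by
  have h1 : (AA s m).Monic :=
    Polynomial.monic_prod_of_monic _ _ fun i _ => (Polynomial.monic_X_sub_C _).pow _
  have h2 : (AA s m).natDegree = ∑ i, m i := by
    unfold AA
    rw [Polynomial.natDegree_prod_of_monic _ _ fun i _ => (Polynomial.monic_X_sub_C _).pow _]
    apply Finset.sum_congr rfl
    intro i _
    rw [Polynomial.natDegree_pow, Polynomial.natDegree_X_sub_C, mul_one]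
  rw [← h2]
  exact h1.coeff_natDegree

lemma HH_eq_prod (s : ι → K) (m : ι → ℕ) (l : Fin 3) :
    HH (AA s m).coeff (X 0) (X l) (∑ i, m i) 0
      = ∏ i, (X l - C (s i) * X 0 : MvPolynomial (Fin 3) K) ^ m i := by
  have h1 : Polynomial.homogenize (AA s m) (∑ i, m i)
      = ∏ i, (X 0 - C (s i) * X 1 : MvPolynomial (Fin 2) K) ^ m i := by
    unfold AA
    rw [Polynomial.homogenize_finsetProd (n := m)]
    · apply Finset.prod_congr rfl
      intro i _
      exact homogenize_linear_pow (s i) (m i)
    · intro i _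
      exact natDegree_linear_pow (s i) (m i)
  have h2 := congrArg (aeval (R := K) ![(X l : MvPolynomial (Fin 3) K), X 0]) h1
  rw [map_prod] at h2
  simp only [map_pow, map_sub, map_mul, aeval_X, aeval_C, Matrix.cons_val_zero,
    Matrix.cons_val_one, algebraMap_eq] at h2
  rw [← h2]
  unfold HH Polynomial.homogenize
  rw [map_sum, Finset.Nat.sum_antidiagonal_eq_sum_range_succ_mk, Nat.sub_zero]
  apply Finset.sum_congr rfl
  intro α hα
  rw [Finset.mem_range] at hα
  rw [aeval_monomial]
  simp only [zero_add]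
  rw [Finsupp.prod_fintype _ _ (fun _ => pow_zero _), Fin.prod_univ_two]
  simp
  ring

end prod

section relprime

variable {K : Type*} [Field K]

/-- the two generators are relatively prime -/
lemma HH_isRelPrime {a b : ℕ → K} {g : ℕ} (ha : a g = 1) (hb : b g = 1) :
    IsRelPrime (HH a (X 0) (X 1) g 0 : MvPolynomial (Fin 3) K) (HH b (X 0) (X 2) g 0) := by
  intro q hq1 hq2
  have h10 : (HH a (X 0) (X 1) g 0 : MvPolynomial (Fin 3) K) ≠ 0 := by
    intro h
    have h1 := z0_HH (l := 1) (by decide) ha (Nat.zero_le g)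
    rw [h, map_zero] at h1
    exact pow_ne_zero _ (X_ne_zero _) h1.symm
  obtain ⟨n, _, hn⟩ := form_of_dvd (HH_isHomogeneous a 1 (Nat.zero_le g)) h10 hq1
  have h1 := map_dvd (z0 (0 : Fin 3)) hq1
  have h2 := map_dvd (z0 (0 : Fin 3)) hq2
  rw [z0_HH (by decide) ha (Nat.zero_le g), Nat.sub_zero] at h1
  rw [z0_HH (by decide) hb (Nat.zero_le g), Nat.sub_zero] at h2
  have hrel : IsRelPrime ((X 1 : MvPolynomial (Fin 3) K) ^ g) (X 2 ^ g) := by
    apply IsRelPrime.pow
    have hp : Irreducible (X 1 : MvPolynomial (Fin 3) K) := (X_prime (R := K) (i := (1 : Fin 3))).irreducible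
    rw [hp.isRelPrime_iff_not_dvd]
    intro h3
    have h4 := X_dvd_X.1 h3
    rcases h4 with h4
    revert h4; decide
  have h3 := hrel h1 h2
  have hzh : (z0 (0 : Fin 3) q).IsHomogeneous n := by
    have := hn.aeval (S := K) (g := fun i => if i = 0 then (0 : MvPolynomial (Fin 3) K) else X i)
      (n := 1) (fun i => by
        split_ifs
        · exact isHomogeneous_zero _ _ _
        · exact isHomogeneous_X _ _)
    simpa [z0] using this
  obtain ⟨c, hc⟩ := isUnit_iff_eq_C_of_isReduced.1 h3
  have hc0 : c ≠ 0 := hc.1.ne_zero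
  have hn0 : n = 0 := by
    have h4 : (z0 (0 : Fin 3) q).IsHomogeneous 0 := by rw [hc.2]; exact isHomogeneous_C _ _
    refine hzh.inj_right h4 ?_
    rw [hc.2]
    exact (C_ne_zero).2 hc0
  subst hn0
  have hq0 : q ≠ 0 := by
    rintro rfl
    exact h10 (zero_dvd_iff.1 hq1)
  have h5 := totalDegree_eq_zero_iff_eq_C.1 (hn.totalDegree hq0)
  rw [h5]
  refine (isUnit_iff_ne_zero.2 ?_).map C
  intro h6
  rw [h6, map_zero] at h5
  exact hq0 h5

end relprime

end Pool.Agent.Helper50.N2
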