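import Mathlib
import Pool.Agent.Helper50.N2.Reg

/-!
# The ideal of the fat points is generated in small degrees (continued)
-/

set_option autoImplicit false

open MvPolynomial

namespace Pool.Agent.Helper50.N2

open Pool.Agent.Helper50.Dem

section top

variable {K : Type*} [Field K] [IsAlgClosed K] (p : ℕ) [Fact p.Prime] [CharP K p]

/-- polynomials all of whose monomials have degree `< n` -/
def LTs (K : Type*) [Field K] (n : ℕ) : Submodule K (MvPolynomial (Fin 3) K) where
  carrier := {r | LT n r}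
  add_mem' := fun ha hb => ha.add hb
  zero_mem' := fun _ _ => coeff_zero _
  smul_mem' := fun c x hx => by
    rw [← C_mul']
    exact hx.C_mul c

include p in
/-- **the affine coordinate ring of the fat points is spanned by small degrees** -/
theorem top_eq {ι : Type*} [Fintype ι] [Nonempty ι] {P : ι → Fin 3 → K}
    (hP : ∀ i, P i 0 ≠ 0) {m : ι → ℕ} {f : MvPolynomial (Fin 3) K} {d t : ℕ} (ht : 0 < t)
    (hp : 2 * t * d ≤ p) (hf : f.IsHomogeneous d) (hf0 : f ≠ 0)
    (hfree : ∀ q : MvPolynomial (Fin 3) K, Prime q → ¬ q ^ t ∣ f)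
    (hV : ∀ i, f ∈ Vi (P i) (t * (m i + 1))) (u : MvPolynomial (Fin 3) K) :
    ∃ w j r : MvPolynomial (Fin 3) K, u = (X 0 - 1) * w + j + r ∧ j ∈ JJ P m ∧
      LT (d / t - 1) r := by
  classical
  have hP0 : ∀ i, P i ≠ 0 := fun i h => hP i (by rw [h]; rfl)
  set W : Submodule K (MvPolynomial (Fin 3) K) :=
    ((Ideal.span {(X 0 - 1 : MvPolynomial (Fin 3) K)}).restrictScalars K ⊔
      (JJ P m).restrictScalars K) ⊔ LTs K (d / t - 1) with hW
  rcases eq_or_ne W ⊤ with htop | htop
  · have hu : u ∈ W := by rw [htop]; trivial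
    obtain ⟨v, hv, r, hr, hvr⟩ := Submodule.mem_sup.1 hu
    obtain ⟨w, hw, j, hj, hwj⟩ := Submodule.mem_sup.1 hv
    obtain ⟨w', hw'⟩ := Ideal.mem_span_singleton.1 hw
    exact ⟨w', j, r, by rw [← hvr, ← hwj, hw'], hj, hr⟩
  · exfalso
    obtain ⟨ψ, hψ0, hψ⟩ := Submodule.exists_le_ker_of_lt_top W (lt_top_iff_ne_top.2 htop)
    have hψx : ∀ u, ψ (X 0 * u) = ψ u := by
      intro u
      have h1 : (X 0 - 1) * u ∈ W := by
        apply Submodule.mem_sup_left
        apply Submodule.mem_sup_left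
        exact Ideal.mem_span_singleton.2 (Dvd.intro _ rfl)
      have h2 := hψ h1
      rw [LinearMap.mem_ker, sub_mul, one_mul, map_sub, sub_eq_zero] at h2
      exact h2
    have hψJ : ∀ j ∈ JJ P m, ψ j = 0 := fun j hj =>
      hψ (Submodule.mem_sup_left (Submodule.mem_sup_right hj))
    have hψL : ∀ r : MvPolynomial (Fin 3) K, LT (d / t - 1) r → ψ r = 0 := fun r hr =>
      hψ (Submodule.mem_sup_right hr)
    have hψxn : ∀ (n : ℕ) (u : MvPolynomial (Fin 3) K), ψ (X 0 ^ n * u) = ψ u := by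
      intro n
      induction n with
      | zero => intro u; rw [pow_zero, one_mul]
      | succ n ih => intro u; rw [pow_succ, mul_assoc, ih, hψx]
    -- a monomial where `ψ` does not vanish
    have hex : ∃ e i j : ℕ, i + j = e ∧ ψ (X 1 ^ i * X 2 ^ j) ≠ 0 := by
      by_contra hcon
      push Not at hcon
      apply hψ0
      ext c : 2
      simp only [LinearMap.comp_apply, LinearMap.zero_apply]
      have h1 : (monomial c (1 : K) : MvPolynomial (Fin 3) K)
          = X 0 ^ c 0 * (X 1 ^ c 1 * X 2 ^ c 2) := by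
        rw [monomial_eq, Finsupp.prod_fintype _ _ (fun _ => pow_zero _), Fin.prod_univ_three]
        simp [mul_assoc]
      have h2 : ψ (monomial c (1 : K)) = 0 := by
        rw [h1, hψxn]
        exact hcon _ _ _ rfl
      exact h2
    have hemin := Nat.find_spec hex
    set e := Nat.find hex with he
    obtain ⟨i₀, j₀, hij, hne⟩ := hemin
    have hVV : VV ψ (X 1) (X 2) e 0 := by
      intro i j hlt
      by_contra h1
      exact Nat.find_min hex (m := i + j) (by omega) ⟨i, j, rfl, h1⟩
    set g := ∑ i, m i with hg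
    set a := (AA (fun i => P i 1 / P i 0) m).coeff with ha'
    set b := (AA (fun i => P i 2 / P i 0) m).coeff with hb'
    have ha : a g = 1 := AA_top _ _
    have hb : b g = 1 := AA_top _ _
    have hprod : ∀ l : Fin 3, HH (AA (fun i => P i l / P i 0) m).coeff (X 0) (X l) g 0
        = ∏ i, (lin (P i) 0 l) ^ m i := fun l => HH_eq_prod _ _ _
    have hmem : ∀ l : Fin 3, HH (AA (fun i => P i l / P i 0) m).coeff (X 0) (X l) g 0
        ∈ JJ P m := by
      intro l
      refine mem_JJ_of_form (HH_isHomogeneous _ l (Nat.zero_le g)) fun i => ?_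
      rw [hprod, ← Finset.mul_prod_erase Finset.univ _ (Finset.mem_univ i)]
      apply Ideal.mul_mem_right
      have := Vi_pow (lin_mem_Vi (P i) 0 (hP i) l) (m i)
      rwa [mul_one] at this
    have hG1 : ∀ u, ψ (HH a (X 0) (X 1) g 0 * u) = 0 := fun u =>
      hψJ _ (Ideal.mul_mem_right _ _ (hmem 1))
    have hG2 : ∀ u, ψ (HH b (X 0) (X 2) g 0 * u) = 0 := fun u =>
      hψJ _ (Ideal.mul_mem_right _ _ (hmem 2))
    have hC : Cond ψ a b g e 0 := ⟨hψx, hVV, hG1, hG2⟩
    have hi₀ : i₀ < g := by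
      by_contra h1
      push Not at h1
      have h2 := psi_HH (z := X 2) hψx ha hG1 (i₀ - g) j₀
      rw [Finset.sum_eq_zero, add_zero, Nat.add_sub_cancel' h1] at h2
      · exact hne h2
      · intro i hi
        rw [Finset.mem_range] at hi
        rw [hVV _ _ (by omega), mul_zero]
    have hj₀ : j₀ < g := by
      by_contra h1
      push Not at h1
      have h2 := psi_HH (z := X 1) hψx hb hG2 (j₀ - g) i₀
      rw [Finset.sum_eq_zero, add_zero, Nat.add_sub_cancel' h1, mul_comm] at h2
      · exact hne h2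
      · intro i hi
        rw [Finset.mem_range] at hi
        rw [mul_comm (X 2 ^ _), hVV _ _ (by omega), mul_zero]
    have hed : d / t - 1 ≤ e := by
      by_contra h1
      push Not at h1
      apply hne
      apply hψL
      rw [X_pow_eq_monomial, X_pow_eq_monomial, monomial_mul]
      apply LT_monomial
      rw [map_add, Finsupp.degree_single, Finsupp.degree_single]
      omega
    have hG1h := HH_isHomogeneous a 1 (Nat.zero_le g)
    have hG2h := HH_isHomogeneous b 2 (Nat.zero_le g)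
    rw [Nat.sub_zero] at hG1h hG2h
    have hG0 : ∀ (l : Fin 3) (c : ℕ → K), l ≠ 0 → c g = 1 →
        (HH c (X 0) (X l) g 0 : MvPolynomial (Fin 3) K) ≠ 0 := by
      intro l c hl hc h1
      have h2 := z0_HH hl hc (Nat.zero_le g)
      rw [h1, map_zero] at h2
      exact pow_ne_zero _ (X_ne_zero _) h2.symm
    refine hf_notMem ha hb hC hi₀ hj₀ hij hne ?_
    exact stepA p (by rfl) hP0 ht hp hf hf0 hfree hV (hf_isHomogeneous hC) hG1h
      (hG0 1 a (by decide) ha) hG2h (hG0 2 b (by decide) hb) (HH_isRelPrime ha hb)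
      (hf_mul_mem ha hb hC hψJ fun j hj n => hc_mem_JJ hj n) (by omega)

end top

section low

variable {σ : Type} [Fintype σ] {K : Type*} [Field K]

/-- generation in degrees `≤ c` -/
lemma mem_span_low {ι : Type*} {P : ι → σ → K} {m : ι → ℕ} {i₀ : σ} (hP : ∀ i, P i i₀ ≠ 0) {c : ℕ}
    (hsub : ∀ k, c ≤ k → ∀ u : MvPolynomial σ K, u.IsHomogeneous k →
      ∃ r, u - X i₀ * r ∈ JJ P m) (k : ℕ) :
    ∀ u : MvPolynomial σ K, u.IsHomogeneous k → u ∈ JJ P m →
      u ∈ Ideal.span {v : MvPolynomial σ K | (∃ n ≤ c, v.IsHomogeneous n) ∧ v ∈ JJ P m} := by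
  induction k with
  | zero =>
    intro u hu huJ
    exact Ideal.subset_span ⟨⟨0, Nat.zero_le _, hu⟩, huJ⟩
  | succ k ih =>
    intro u hu huJ
    by_cases hk : k + 1 ≤ c
    · exact Ideal.subset_span ⟨⟨k + 1, hk, hu⟩, huJ⟩
    · have h1 : u ∈ Ideal.span (Set.range (X : σ → MvPolynomial σ K)) := by
        have := idealOfVars_pow_of_form (k := 1) (by omega) hu
        rwa [pow_one] at this
      obtain ⟨v, hv⟩ := (Ideal.mem_span_range_iff_exists_fun).1 h1
      have h2 : u = ∑ l, homogeneousComponent k (v l) * X l := by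
        conv_lhs => rw [← homogeneousComponent_eq_self hu, ← hv, map_sum]
        apply Finset.sum_congr rfl
        intro l _
        rw [hc_mul_form (isHomogeneous_X _ _)]
      have h3 : ∀ l, ∃ r, homogeneousComponent k (v l) - X i₀ * r ∈ JJ P m := fun l =>
        hsub k (by omega) _ (homogeneousComponent_isHomogeneous k (v l))
      choose r hr using h3
      have h4 : u = ∑ l, (homogeneousComponent k (v l) - X i₀ * r l) * X l
          + (∑ l, r l * X l) * X i₀ := by
        conv_lhs => rw [h2]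
        rw [Finset.sum_mul, ← Finset.sum_add_distrib]
        apply Finset.sum_congr rfl
        intro l _
        ring
      have h5 : (∑ l, r l * X l) ∈ JJ P m := by
        apply JJ_cancel hP
        have : X i₀ * (∑ l, r l * X l)
            = u - ∑ l, (homogeneousComponent k (v l) - X i₀ * r l) * X l := by
          linear_combination -h4
        rw [this]
        exact Ideal.sub_mem _ huJ (Ideal.sum_mem _ fun l _ => Ideal.mul_mem_right _ _ (hr l))
      rw [← homogeneousComponent_eq_self hu, h4, map_add, map_sum,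
        hc_mul_form (isHomogeneous_X _ _)]
      refine Ideal.add_mem _ (Ideal.sum_mem _ fun l _ => ?_) ?_
      · rw [hc_mul_form (isHomogeneous_X _ _)]
        exact Ideal.mul_mem_right _ _ (ih _ (homogeneousComponent_isHomogeneous _ _)
          (hc_mem_JJ (hr l) _))
      · exact Ideal.mul_mem_right _ _ (ih _ (homogeneousComponent_isHomogeneous _ _)
          (hc_mem_JJ h5 _))

lemma JJ_eq_span_of_sub {ι : Type*} {P : ι → σ → K} {m : ι → ℕ} {i₀ : σ}
    (hP : ∀ i, P i i₀ ≠ 0) {c : ℕ}
    (hsub : ∀ k, c ≤ k → ∀ u : MvPolynomial σ K, u.IsHomogeneous k →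
      ∃ r, u - X i₀ * r ∈ JJ P m) :
    JJ P m = Ideal.span
      {v : MvPolynomial σ K | (∃ n ≤ c, v.IsHomogeneous n) ∧ v ∈ JJ P m} := by
  apply le_antisymm
  · conv_lhs => rw [JJ]
    rw [Ideal.span_le]
    rintro u ⟨⟨n, hn⟩, hu⟩
    exact mem_span_low hP hsub n u hn (mem_JJ_of_form hn hu)
  · rw [Ideal.span_le]
    rintro u ⟨_, hu⟩
    exact hu

end low

section theta

variable {K : Type*} [Field K]

/-- homogenisation in degree `N` -/
noncomputable def Th (N : ℕ) : MvPolynomial (Fin 3) K →ₗ[K] MvPolynomial (Fin 3) K :=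
  ∑ n ∈ Finset.range (N + 1), LinearMap.mulLeft K (X 0 ^ (N - n)) ∘ₗ homogeneousComponent n

lemma Th_apply (N : ℕ) (u : MvPolynomial (Fin 3) K) :
    Th N u = ∑ n ∈ Finset.range (N + 1), X 0 ^ (N - n) * homogeneousComponent n u := by
  unfold Th
  rw [LinearMap.sum_apply]
  rfl

lemma Th_form {N k : ℕ} (hk : k ≤ N) {u : MvPolynomial (Fin 3) K} (hu : u.IsHomogeneous k) :
    Th N u = X 0 ^ (N - k) * u := by
  rw [Th_apply, Finset.sum_eq_single k]
  · rw [homogeneousComponent_eq_self hu]
  · intro n _ hn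
    rw [homogeneousComponent_of_mem hu, if_neg hn, mul_zero]
  · intro h
    exact absurd (Finset.mem_range.2 (by omega)) h

lemma Th_kill {N : ℕ} {w : MvPolynomial (Fin 3) K} (hw : w.totalDegree < N) :
    Th N ((X 0 - 1) * w) = 0 := by
  have h1 : ∀ n, homogeneousComponent (n + 1) (X 0 * w) = X 0 * homogeneousComponent n w := by
    intro n
    rw [mul_comm, hc_mul_form (isHomogeneous_X _ _), mul_comm]
  have h0 : homogeneousComponent 0 (X 0 * w) = 0 := by
    rw [mul_comm, hc_mul_form_of_lt (isHomogeneous_X K (0 : Fin 3)) _ (Nat.lt_succ_self 0)]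
  rw [sub_mul, one_mul, map_sub, Th_apply, Th_apply, Finset.sum_range_succ',
    Finset.sum_range_succ, h0, mul_zero, add_zero, homogeneousComponent_eq_zero N w hw, mul_zero,
    add_zero, sub_eq_zero]
  apply Finset.sum_congr rfl
  intro n hn
  rw [Finset.mem_range] at hn
  rw [h1, ← mul_assoc, ← pow_succ]
  congr 2
  omega

lemma Th_LT {N k c : ℕ} (hck : c ≤ k) (hk : k ≤ N) {r : MvPolynomial (Fin 3) K}
    (hr : LT c r) : ∃ r', Th N r = X 0 ^ (N - k) * (X 0 * r') := by
  refine ⟨∑ n ∈ Finset.range c, X 0 ^ (k - 1 - n) * homogeneousComponent n r, ?_⟩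
  have h1 : ∀ n, c ≤ n → homogeneousComponent n r = 0 := by
    intro n hn
    ext u
    rw [coeff_homogeneousComponent, coeff_zero]
    split_ifs with h
    · exact hr u (by omega)
    · rfl
  rw [Th_apply, Finset.mul_sum, Finset.mul_sum]
  have h2 : Finset.range c ⊆ Finset.range (N + 1) := by
    intro n hn
    rw [Finset.mem_range] at *
    omega
  rw [← Finset.sum_subset h2]
  · apply Finset.sum_congr rfl
    intro n hn
    rw [Finset.mem_range] at hn
    rw [← mul_assoc, ← mul_assoc, ← pow_succ, ← pow_add]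
    congr 2
    omega
  · intro n _ hn
    rw [Finset.mem_range, not_lt] at hn
    rw [h1 n hn, mul_zero]

lemma JJ_cancel_pow {ι : Type*} {P : ι → Fin 3 → K} {μ : ι → ℕ} (hP : ∀ i, P i 0 ≠ 0) (n : ℕ)
    {f : MvPolynomial (Fin 3) K} (hf : X 0 ^ n * f ∈ JJ P μ) : f ∈ JJ P μ := by
  induction n with
  | zero => rwa [pow_zero, one_mul] at hf
  | succ n ih =>
    apply ih
    apply JJ_cancel hP
    rwa [pow_succ, mul_comm (X 0 ^ n) (X 0), mul_assoc] at hf

/-- the spanning property, homogeneous version -/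
lemma exists_sub_mem {ι : Type*} {P : ι → Fin 3 → K} {m : ι → ℕ} (hP : ∀ i, P i 0 ≠ 0) {c : ℕ}
    (htop : ∀ u : MvPolynomial (Fin 3) K, ∃ w j r : MvPolynomial (Fin 3) K,
      u = (X 0 - 1) * w + j + r ∧ j ∈ JJ P m ∧ LT c r)
    {u : MvPolynomial (Fin 3) K} {k : ℕ} (hck : c ≤ k) (hu : u.IsHomogeneous k) :
    ∃ r, u - X 0 * r ∈ JJ P m := by
  obtain ⟨w, j, r, hu', hj, hr⟩ := htop u
  set N := k + w.totalDegree + 1 with hN
  have h1 := congrArg (Th N) hu'
  rw [map_add, map_add, Th_kill (by omega), zero_add, Th_form (k := k) (by omega) hu] at h1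
  obtain ⟨r', hr'⟩ := Th_LT hck (show k ≤ N by omega) hr
  refine ⟨r', JJ_cancel_pow hP (N - k) ?_⟩
  have h2 : X 0 ^ (N - k) * (u - X 0 * r') = Th N j := by
    rw [hr'] at h1
    linear_combination h1
  rw [h2, Th_apply]
  exact Ideal.sum_mem _ fun n _ => Ideal.mul_mem_left _ _ (hc_mem_JJ hj n)

/-- generation in degrees `≤ c` -/
lemma JJ_eq_span_low {ι : Type*} {P : ι → Fin 3 → K} {m : ι → ℕ} (hP : ∀ i, P i 0 ≠ 0) {c : ℕ}
    (htop : ∀ u : MvPolynomial (Fin 3) K, ∃ w j r : MvPolynomial (Fin 3) K,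
      u = (X 0 - 1) * w + j + r ∧ j ∈ JJ P m ∧ LT c r) :
    JJ P m = Ideal.span
      {v : MvPolynomial (Fin 3) K | (∃ n ≤ c, v.IsHomogeneous n) ∧ v ∈ JJ P m} :=
  JJ_eq_span_of_sub (i₀ := 0) hP fun _ hk _ hu => exists_sub_mem hP htop hk hu

end theta

end Pool.Agent.Helper50.N2
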