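import Mathlib
import Pool.Agent.Helper50.N2.Reg2

/-!
# The containment for `t`-th power free forms, in good coordinates
-/

set_option autoImplicit false

open MvPolynomial

namespace Pool.Agent.Helper50.N2

open Pool.Agent.Helper50.Dem

section comp

variable {σ : Type} {K : Type*} [Field K] [IsAlgClosed K] (p : ℕ) [Fact p.Prime] [CharP K p]
  (e : ℕ)

/-- all components in the ideal -/
def AllComp (I : Ideal (MvPolynomial σ K)) (f : MvPolynomial σ K) : Prop :=
  ∀ a : σ →₀ ℕ, (∀ i, a i < p ^ e) → rt p e a f ∈ I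

lemma AllComp.mul {I I' : Ideal (MvPolynomial σ K)} {f g : MvPolynomial σ K}
    (hf : AllComp p e I f) (hg : AllComp p e I' g) : AllComp p e (I * I') (f * g) := by
  intro b hb
  obtain ⟨S, hS1, hS2⟩ := decomp p e f
  obtain ⟨T, hT1, hT2⟩ := decomp p e g
  have e1 : f * g = (∑ a ∈ S, (rt p e a f) ^ p ^ e * monomial a 1) * g := by rw [← hS2]
  rw [e1, Finset.sum_mul, rt_sum]
  apply Ideal.sum_mem
  intro a ha
  rw [mul_assoc, rt_pow_mul p e hb]
  apply Ideal.mul_mem_mul (hf a (hS1 a ha))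
  have e2 : monomial a 1 * g
      = monomial a 1 * (∑ a ∈ T, (rt p e a g) ^ p ^ e * monomial a 1) := by rw [← hT2]
  rw [e2, Finset.mul_sum, rt_sum]
  apply Ideal.sum_mem
  intro a' ha'
  rw [mul_left_comm, rt_pow_mul p e hb]
  exact Ideal.mul_mem_right _ _ (hg a' (hT1 a' ha'))

lemma AllComp.pow {I : Ideal (MvPolynomial σ K)} {f : MvPolynomial σ K}
    (hf : AllComp p e I f) (n : ℕ) : AllComp p e (I ^ n) (f ^ n) := by
  induction n with
  | zero =>
    intro b _
    rw [pow_zero I, Ideal.one_eq_top]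
    trivial
  | succ n ih =>
    rw [pow_succ, pow_succ]
    exact ih.mul p e hf

/-- recovering a form from the components of `f ^ q * f ^ r` -/
lemma mem_of_allComp {I : Ideal (MvPolynomial σ K)} {f : MvPolynomial σ K} {d r : ℕ}
    (hf : f.IsHomogeneous d) (hf0 : f ≠ 0) (hr : r * d < p ^ e)
    (h : AllComp p e I (f ^ p ^ e * f ^ r)) : f ∈ I := by
  classical
  have hq := q_pos p e
  obtain ⟨b, hb⟩ := ne_zero_iff.1 (pow_ne_zero r hf0)
  have hfr : (f ^ r).IsHomogeneous (d * r) := hf.pow r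
  have hbd : b.degree = d * r := by
    by_contra h1
    exact hb (hfr.coeff_eq_zero h1)
  have hbi : ∀ i, b i < p ^ e := by
    intro i
    have h1 : b i ≤ b.degree := Finsupp.le_degree i b
    rw [mul_comm] at hr
    omega
  have h1 := h b hbi
  rw [rt_pow_mul p e hbi] at h1
  obtain ⟨β, hβ⟩ := exists_pow_q p e (coeff b (f ^ r))
  have h2 : rt p e b (f ^ r) = C β := by
    apply rt_ext
    intro c
    rw [coeff_C]
    by_cases hc : 0 = c
    · subst hc
      rw [if_pos rfl, hβ, smul_zero, zero_add]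
    · rw [if_neg hc, zero_pow hq.ne', hfr.coeff_eq_zero]
      rw [map_add, degree_smul', hbd]
      have h3 : 0 < c.degree := by
        rw [Nat.pos_iff_ne_zero]
        intro h6
        exact hc ((Finsupp.degree_eq_zero_iff c).1 h6).symm
      have h4 : 0 < p ^ e * c.degree := Nat.mul_pos hq h3
      omega
  have hβ0 : β ≠ 0 := by
    rintro rfl
    rw [zero_pow hq.ne'] at hβ
    exact hb hβ.symm
  rw [h2] at h1
  have h3 : f = C β⁻¹ * (f * C β) := by
    rw [mul_left_comm, ← C_mul, inv_mul_cancel₀ hβ0, C_1, mul_one]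
  rw [h3]
  exact Ideal.mul_mem_left _ _ h1

include p in
/-- the containment of Ein, Lazarsfeld and Smith and of Hochster and Huneke for points, in
characteristic `p` -/
theorem mem_JJ_pow [DecidableEq σ] [Fintype σ] {M : ℕ} (hσ : Fintype.card σ = M + 2)
    {ι : Type*} {P : ι → σ → K} (hP : ∀ i, P i ≠ 0) {m : ι → ℕ} {f : MvPolynomial σ K} {d t : ℕ}
    (ht : 0 < t) (hf : f.IsHomogeneous d) (hV : ∀ i, f ∈ Vi (P i) (t * (m i + M))) :
    f ∈ JJ P m ^ t := by
  by_cases hf0 : f = 0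
  · rw [hf0]; exact Ideal.zero_mem _
  have hp : 1 < p := (Fact.out : p.Prime).one_lt
  obtain ⟨e, he⟩ : ∃ e, t * d < p ^ e := ⟨t * d, Nat.lt_pow_self hp⟩
  obtain ⟨s, hs1, hs2⟩ := exists_s (p ^ e) ht
  have hVs : ∀ i, f ^ s ∈ Vi (P i) (p ^ e * (m i + M)) := by
    intro i
    refine Vi_mono ?_ (Vi_pow (hV i) s)
    calc p ^ e * (m i + M) ≤ (t * s) * (m i + M) := Nat.mul_le_mul_right _ hs1
      _ = s * (t * (m i + M)) := by ring
  have h1 : AllComp p e (JJ P m) (f ^ s) := fun a ha =>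
    rt_mem_JJ p e hσ hP (hf.pow s) hVs ha
  have h2 := h1.pow p e t
  rw [← pow_mul] at h2
  obtain ⟨r, hr⟩ : ∃ r, s * t = p ^ e + r := ⟨s * t - p ^ e, by rw [mul_comm s t]; omega⟩
  rw [hr, pow_add] at h2
  refine mem_of_allComp p e hf hf0 (r := r) ?_ h2
  rw [mul_comm s t] at hr
  have h3 : r < t := by omega
  have h4 : r * d ≤ t * d := Nat.mul_le_mul_right _ h3.le
  omega

end comp

/-- powers of an ideal generated in low degrees -/
lemma pow_eq_span {σ : Type} {K : Type*} [Field K] {J : Ideal (MvPolynomial σ K)} {c : ℕ}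
    (hJ : J = Ideal.span {v : MvPolynomial σ K | (∃ n ≤ c, v.IsHomogeneous n) ∧ v ∈ J}) (n : ℕ) :
    J ^ n = Ideal.span {v : MvPolynomial σ K | (∃ k ≤ n * c, v.IsHomogeneous k) ∧ v ∈ J ^ n} := by
  apply le_antisymm
  · induction n with
    | zero =>
      intro x _
      have h1 : (1 : MvPolynomial σ K) ∈ Ideal.span {v : MvPolynomial σ K |
          (∃ k ≤ 0 * c, v.IsHomogeneous k) ∧ v ∈ J ^ 0} :=
        Ideal.subset_span ⟨⟨0, Nat.zero_le _, isHomogeneous_one _ _⟩, by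
          rw [pow_zero, Ideal.one_eq_top]; trivial⟩
      rw [(Ideal.eq_top_iff_one _).2 h1]
      trivial
    | succ n ih =>
      rw [pow_succ]
      refine (Ideal.mul_mono ih (le_of_eq hJ)).trans ?_
      rw [Ideal.span_mul_span', Ideal.span_le]
      rintro _ ⟨u, ⟨⟨k, hk, hu⟩, hu'⟩, v, ⟨⟨l, hl, hv⟩, hv'⟩, rfl⟩
      refine Ideal.subset_span ⟨⟨k + l, ?_, hu.mul hv⟩, ?_⟩
      · rw [Nat.succ_mul]; omega
      · exact Ideal.mul_mem_mul hu' hv'
  · rw [Ideal.span_le]
    rintro u ⟨_, hu⟩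
    exact hu

section tfree

variable {K : Type*} [Field K] [IsAlgClosed K] (p : ℕ) [Fact p.Prime] [CharP K p]

include p in
/-- **the containment for `t`-th power free forms, in good coordinates** -/
theorem tfree_coord {ι : Type*} [Fintype ι] [Nonempty ι] {P : ι → Fin 3 → K}
    (hP : ∀ i, P i 0 ≠ 0) {m : ι → ℕ} {f : MvPolynomial (Fin 3) K} {d t : ℕ} (ht : 0 < t)
    (hp : 2 * t * d ≤ p) (hf : f.IsHomogeneous d) (hf0 : f ≠ 0)
    (hfree : ∀ q : MvPolynomial (Fin 3) K, Prime q → ¬ q ^ t ∣ f)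
    (hV : ∀ i, f ∈ Vi (P i) (t * (m i + 1))) :
    f ∈ idealOfVars (Fin 3) K ^ t * JJ P m ^ t := by
  have hP0 : ∀ i, P i ≠ 0 := fun i h => hP i (by rw [h]; rfl)
  have htd : t ≤ d := by
    obtain ⟨i⟩ := ‹Nonempty ι›
    have h1 := order_le_degree hf hf0 _ (hV i)
    nlinarith
  -- membership in `JJ ^ t`
  have hmem : f ∈ JJ P m ^ t := mem_JJ_pow p (M := 1) (by rfl) hP0 ht hf hV
  have hgen := JJ_eq_span_low hP (top_eq p hP ht hp hf hf0 hfree hV)
  have hpow := pow_eq_span hgen t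
  rw [hpow] at hmem ⊢
  refine mem_mul_span_of_form (D := t * (d / t - 1)) (fun s hs => ?_) ?_ hmem hf
  · obtain ⟨⟨k, hk, hs'⟩, _⟩ := hs
    exact ⟨k, hk, hs'⟩
  · have h1 : 1 ≤ d / t := (Nat.one_le_div_iff ht).2 htd
    have h2 := Nat.mul_div_le d t
    obtain ⟨c, hc⟩ : ∃ c, d / t = c + 1 := ⟨d / t - 1, by omega⟩
    rw [hc] at h2 ⊢
    rw [Nat.add_sub_cancel]
    nlinarith

end tfree

end Pool.Agent.Helper50.N2
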