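import Mathlib
import Pool.Agent.Helper50.N2.TFree

/-!
# The containment in characteristic `p ≥ 2 t d`
-/

set_option autoImplicit false

open MvPolynomial

namespace Pool.Agent.Helper50.N2

open Pool.Agent.Helper50.Dem

section shear

variable {K : Type*} [Field K]

/-- a shear of coordinates -/
noncomputable def sh (a b : K) : MvPolynomial (Fin 3) K →ₐ[K] MvPolynomial (Fin 3) K :=
  aeval ![X 0 + C a * X 1 + C b * X 2, X 1, X 2]

lemma sh_C (a b c : K) : sh a b (C c) = C c := by simp [sh]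

lemma sh_X0 (a b : K) : sh a b (X 0) = X 0 + C a * X 1 + C b * X 2 := by simp [sh]

lemma sh_X1 (a b : K) : sh a b (X 1) = X 1 := by simp [sh]

lemma sh_X2 (a b : K) : sh a b (X 2) = X 2 := by simp [sh]

lemma sh_sh (a b : K) : (sh a b).comp (sh (-a) (-b)) = AlgHom.id K _ := by
  apply MvPolynomial.algHom_ext
  intro i
  rw [AlgHom.comp_apply]
  fin_cases i
  · change sh a b (sh (-a) (-b) (X 0)) = X 0
    rw [sh_X0, map_add, map_add, map_mul, map_mul, sh_C, sh_C, sh_X0, sh_X1, sh_X2, C_neg, C_neg]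
    ring
  · change sh a b (sh (-a) (-b) (X 1)) = X 1
    rw [sh_X1, sh_X1]
  · change sh a b (sh (-a) (-b) (X 2)) = X 2
    rw [sh_X2, sh_X2]

/-- the shear as an equivalence -/
noncomputable def she (a b : K) : MvPolynomial (Fin 3) K ≃ₐ[K] MvPolynomial (Fin 3) K :=
  AlgEquiv.ofAlgHom (sh a b) (sh (-a) (-b)) (sh_sh a b) (by
    have := sh_sh (-a) (-b)
    rwa [neg_neg, neg_neg] at this)

/-- the shear on points -/
def shp (a b : K) (P : Fin 3 → K) : Fin 3 → K := ![P 0 - a * P 1 - b * P 2, P 1, P 2]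

lemma sh_tr (a b : K) (P : Fin 3 → K) (f : MvPolynomial (Fin 3) K) :
    sh a b (tr P f) = tr (shp a b P) (sh a b f) := by
  have : (sh a b).comp (tr P) = (tr (shp a b P)).comp (sh a b) := by
    apply MvPolynomial.algHom_ext
    intro i
    rw [AlgHom.comp_apply, AlgHom.comp_apply, tr_X, map_add, sh_C]
    fin_cases i
    · change sh a b (X 0) + C (P 0) = tr (shp a b P) (sh a b (X 0))
      rw [sh_X0, map_add, map_add, map_mul, map_mul, tr_X, tr_X, tr_X, tr_C, tr_C]
      simp only [shp, Matrix.cons_val_zero, Matrix.cons_val_one, Matrix.cons_val, C_sub, C_mul]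
      ring
    · change sh a b (X 1) + C (P 1) = tr (shp a b P) (sh a b (X 1))
      rw [sh_X1, tr_X]
      simp [shp]
    · change sh a b (X 2) + C (P 2) = tr (shp a b P) (sh a b (X 2))
      rw [sh_X2, tr_X]
      simp [shp]
  exact congrArg (fun φ => φ f) this

lemma sh_isHomogeneous (a b : K) {f : MvPolynomial (Fin 3) K} {n : ℕ} (hf : f.IsHomogeneous n) :
    (sh a b f).IsHomogeneous n := by
  have := hf.aeval (S := K) (g := ![(X 0 : MvPolynomial (Fin 3) K) + C a * X 1 + C b * X 2,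
    X 1, X 2]) (n := 1) (fun i => by
      fin_cases i
      · exact ((isHomogeneous_X _ _).add (isHomogeneous_C_mul_X _ _)).add
          (isHomogeneous_C_mul_X _ _)
      · exact isHomogeneous_X _ _
      · exact isHomogeneous_X _ _)
  simpa [sh] using this

lemma sh_map_ideal (a b : K) : (idealOfVars (Fin 3) K).map (sh a b) ≤ idealOfVars (Fin 3) K := by
  rw [Ideal.map_span, Ideal.span_le]
  rintro _ ⟨_, ⟨i, rfl⟩, rfl⟩
  have h1 := idealOfVars_pow_of_form (k := 1) le_rfl (sh_isHomogeneous a b (isHomogeneous_X K i))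
  rwa [pow_one] at h1

lemma sh_mem_Vi (a b : K) {P : Fin 3 → K} {k : ℕ} {f : MvPolynomial (Fin 3) K}
    (hf : f ∈ Vi P k) : sh a b f ∈ Vi (shp a b P) k := by
  unfold Vi at *
  rw [Ideal.mem_comap] at *
  rw [← sh_tr]
  have h2 := Ideal.mem_map_of_mem (sh a b) hf
  rw [Ideal.map_pow] at h2
  exact Ideal.pow_right_mono (sh_map_ideal a b) k h2

lemma sh_map_JJ (a b : K) {ι : Type*} (P : ι → Fin 3 → K) (μ : ι → ℕ) :
    (JJ P μ).map (sh a b) ≤ JJ (fun i => shp a b (P i)) μ := by
  conv_lhs => rw [JJ]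
  rw [Ideal.map_span, Ideal.span_le]
  rintro _ ⟨f, ⟨⟨n, hn⟩, hf⟩, rfl⟩
  exact mem_JJ_of_form (sh_isHomogeneous a b hn) fun i => sh_mem_Vi a b (hf i)

lemma shp_shp (a b : K) (P : Fin 3 → K) : shp (-a) (-b) (shp a b P) = P := by
  funext i
  fin_cases i
  · simp [shp]; ring
  · simp [shp]
  · simp [shp]

/-- a shear moving finitely many points off the line `x₀ = 0` -/
lemma exists_shear [Infinite K] {ι : Type*} [Fintype ι] {P : ι → Fin 3 → K}
    (hP : ∀ i, P i ≠ 0) : ∃ a b : K, ∀ i, shp a b (P i) 0 ≠ 0 := by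
  classical
  set F : ι → Polynomial K := fun i => Polynomial.C (P i 0) - Polynomial.X * Polynomial.C (P i 1)
    - Polynomial.X ^ 2 * Polynomial.C (P i 2) with hF
  have hF0 : ∀ i, F i ≠ 0 := by
    intro i h
    apply hP i
    have h0 := congrArg (fun q => Polynomial.coeff q 0) h
    have h1 := congrArg (fun q => Polynomial.coeff q 1) h
    have h2 := congrArg (fun q => Polynomial.coeff q 2) h
    simp [hF, Polynomial.coeff_X, Polynomial.coeff_C, Polynomial.coeff_X_pow] at h0 h1 h2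
    funext j
    fin_cases j
    · exact h0
    · exact h1
    · exact h2
  have hG0 : ∏ i, F i ≠ 0 := Finset.prod_ne_zero_iff.2 fun i _ => hF0 i
  obtain ⟨a, ha⟩ := Infinite.exists_notMem_finset (∏ i, F i).roots.toFinset
  rw [Multiset.mem_toFinset, Polynomial.mem_roots hG0, Polynomial.IsRoot.def,
    Polynomial.eval_prod] at ha
  refine ⟨a, a ^ 2, fun i h => ha ?_⟩
  apply Finset.prod_eq_zero (Finset.mem_univ i)
  rw [hF]
  simp only [Polynomial.eval_sub, Polynomial.eval_mul, Polynomial.eval_C, Polynomial.eval_X,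
    Polynomial.eval_pow]
  simpa [shp] using h

/-- the sheared containment gives the original one -/
lemma mem_of_sh_mem (a b : K) {ι : Type*} {P : ι → Fin 3 → K} {m : ι → ℕ} {t : ℕ}
    {f : MvPolynomial (Fin 3) K}
    (h : sh a b f ∈ idealOfVars (Fin 3) K ^ t * JJ (fun i => shp a b (P i)) m ^ t) :
    f ∈ idealOfVars (Fin 3) K ^ t * JJ P m ^ t := by
  have h1 := Ideal.mem_map_of_mem (sh (-a) (-b)) h
  rw [Ideal.map_mul, Ideal.map_pow, Ideal.map_pow] at h1
  have h2 : sh (-a) (-b) (sh a b f) = f := by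
    have := sh_sh (-a) (-b)
    rw [neg_neg, neg_neg] at this
    exact congrArg (fun φ => φ f) this
  rw [h2] at h1
  refine Ideal.mul_mono (Ideal.pow_right_mono (sh_map_ideal (-a) (-b)) t)
    (Ideal.pow_right_mono ?_ t) h1
  refine (sh_map_JJ (-a) (-b) _ m).trans (le_of_eq ?_)
  congr 1
  funext i
  exact shp_shp a b (P i)

end shear

section charp

variable {K : Type*} [Field K] [IsAlgClosed K] (p : ℕ) [Fact p.Prime] [CharP K p]

include p in
/-- the containment for `t`-th power free forms -/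
theorem tfree {ι : Type*} [Fintype ι] [Nonempty ι] {P : ι → Fin 3 → K}
    (hP : ∀ i, P i ≠ 0) {m : ι → ℕ} {f : MvPolynomial (Fin 3) K} {d t : ℕ} (ht : 0 < t)
    (hp : 2 * t * d ≤ p) (hf : f.IsHomogeneous d) (hf0 : f ≠ 0)
    (hfree : ∀ q : MvPolynomial (Fin 3) K, Prime q → ¬ q ^ t ∣ f)
    (hV : ∀ i, f ∈ Vi (P i) (t * (m i + 1))) :
    f ∈ idealOfVars (Fin 3) K ^ t * JJ P m ^ t := by
  have hinf : Infinite K := IsAlgClosed.instInfinite
  obtain ⟨a, b, hab⟩ := exists_shear hP
  apply mem_of_sh_mem a b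
  have hshe : ∀ u, she a b u = sh a b u := fun _ => rfl
  refine tfree_coord p hab ht hp (sh_isHomogeneous a b hf) ?_ ?_ fun i => sh_mem_Vi a b (hV i)
  · rw [← hshe]
    exact (map_ne_zero_iff _ (she a b).injective).2 hf0
  · intro q hq hdvd
    refine hfree ((she a b).symm q) ((MulEquiv.prime_iff (she a b).symm).2 hq) ?_
    have h1 := map_dvd (she a b).symm hdvd
    rw [map_pow, ← hshe, AlgEquiv.symm_apply_apply] at h1
    exact h1

include p in
/-- **the containment for forms of degree `d` in characteristic `p ≥ 2 t d`** -/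
theorem main_charp {ι : Type*} [Fintype ι] [Nonempty ι] {P : ι → Fin 3 → K}
    (hP : ∀ i, P i ≠ 0) {m : ι → ℕ} {f : MvPolynomial (Fin 3) K} {d t : ℕ} (ht : 0 < t)
    (hp : 2 * t * d ≤ p) (hf : f.IsHomogeneous d)
    (hV : ∀ i, f ∈ Vi (P i) (t * (m i + 1))) :
    f ∈ idealOfVars (Fin 3) K ^ t * JJ P m ^ t := by
  classical
  by_cases hf0 : f = 0
  · rw [hf0]; exact Ideal.zero_mem _
  -- the largest `t`-th power of a form dividing `f`
  set Q : ℕ → Prop := fun n => ∃ π : MvPolynomial (Fin 3) K, π.IsHomogeneous n ∧ π ^ t ∣ f with hQ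
  have hbound : ∀ n, Q n → n ≤ d := by
    rintro n ⟨π, hπ, hdvd⟩
    have hπ0 : π ≠ 0 := by
      rintro rfl
      rw [zero_pow ht.ne', zero_dvd_iff] at hdvd
      exact hf0 hdvd
    obtain ⟨j, hj, hj'⟩ := form_of_dvd hf hf0 hdvd
    have h1 := (hπ.pow t).inj_right hj' (pow_ne_zero _ hπ0)
    nlinarith
  have hQ0 : Q 0 := ⟨1, isHomogeneous_one _ _, by rw [one_pow]; exact one_dvd _⟩
  set n := Nat.findGreatest Q d with hn
  have hQn : Q n := Nat.findGreatest_spec (Nat.zero_le d) hQ0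
  have hmax : ∀ k, Q k → k ≤ n := fun k hk => Nat.le_findGreatest (hbound k hk) hk
  obtain ⟨π, hπ, g, hg⟩ := hQn
  have hπt0 : π ^ t ≠ 0 := by
    intro h; rw [h, zero_mul] at hg; exact hf0 hg
  have hπ0 : π ≠ 0 := by rintro rfl; exact hπt0 (zero_pow ht.ne')
  have hg0 : g ≠ 0 := by rintro rfl; rw [mul_zero] at hg; exact hf0 hg
  obtain ⟨i', d', _, hgh, hid⟩ := form_of_mul hf hf0 hg
  have hfree : ∀ q : MvPolynomial (Fin 3) K, Prime q → ¬ q ^ t ∣ g := by
    intro q hq hdvd
    obtain ⟨j, _, hj⟩ := form_of_dvd hgh hg0 ((dvd_pow_self q ht.ne').trans hdvd)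
    have hQ' : Q (n + j) := by
      refine ⟨π * q, hπ.mul hj, ?_⟩
      rw [mul_pow, hg]
      exact mul_dvd_mul_left _ hdvd
    have h1 := hmax _ hQ'
    have hj0 : j = 0 := by omega
    subst hj0
    have h5 := totalDegree_eq_zero_iff_eq_C.1 (hj.totalDegree hq.ne_zero)
    apply hq.not_isUnit
    rw [h5]
    refine (isUnit_iff_ne_zero.2 ?_).map C
    intro h6
    rw [h6, map_zero] at h5
    exact hq.ne_zero h5
  have hord : ∀ i, ∃ k ≤ n, π ∈ Vi (P i) k ∧ π ∉ Vi (P i) (k + 1) := fun i =>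
    exists_order hπ hπ0
  choose k hkn hk1 hk2 using hord
  have hVg : ∀ i, k i ≤ m i → g ∈ Vi (P i) (t * (m i - k i + 1)) := by
    intro i hi
    have h1 := hV i
    rw [hg] at h1
    refine Vi_pow_mul_cancel (hk1 i) (hk2 i) (t := t) ?_
    have h2 : t * k i + t * (m i - k i + 1) = t * (m i + 1) := by
      rw [← Nat.mul_add]
      congr 1
      omega
    rw [h2]
    exact h1
  by_cases hne : Nonempty {i // k i ≤ m i}
  · have hmain := tfree p (P := fun i : {i // k i ≤ m i} => P i.1) (fun i => hP i.1)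
      (m := fun i => m i.1 - k i.1) ht (le_trans (Nat.mul_le_mul_left _ (by omega)) hp) hgh hg0
      hfree (fun i => hVg i.1 i.2)
    have h1 : Ideal.span {π} * JJ (fun i : {i // k i ≤ m i} => P i.1) (fun i => m i.1 - k i.1)
        ≤ JJ P m := by
      rw [JJ, Ideal.span_mul_span', Ideal.span_le]
      rintro _ ⟨u, hu, v, ⟨⟨j, hj⟩, hv⟩, rfl⟩
      rw [Set.mem_singleton_iff] at hu
      subst hu
      refine mem_JJ_of_form (hπ.mul hj) fun i => ?_
      by_cases hi : k i ≤ m i
      · have h2 := Vi_mul (hk1 i) (hv ⟨i, hi⟩)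
        rwa [Nat.add_sub_cancel' hi] at h2
      · exact Ideal.mul_mem_right _ _ (Vi_mono (by omega) (hk1 i))
    have h2 : f ∈ Ideal.span {π} ^ t * (idealOfVars (Fin 3) K ^ t *
        JJ (fun i : {i // k i ≤ m i} => P i.1) (fun i => m i.1 - k i.1) ^ t) := by
      rw [hg]
      exact Ideal.mul_mem_mul (Ideal.pow_mem_pow (Ideal.mem_span_singleton_self π) t) hmain
    rw [mul_left_comm, ← mul_pow] at h2
    exact Ideal.mul_mono le_rfl (Ideal.pow_right_mono h1 t) h2
  · rw [not_nonempty_iff] at hne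
    have hk : ∀ i, m i + 1 ≤ k i := by
      intro i
      by_contra h1
      exact hne.elim ⟨i, by omega⟩
    obtain ⟨i₀⟩ := ‹Nonempty ι›
    have hn1 : 1 ≤ n := by
      have := hk i₀
      have := hkn i₀
      omega
    have hnp : n < p := by
      have h1 := hbound n ⟨π, hπ, g, hg⟩
      have h2 : 0 < d := by omega
      nlinarith
    have heuler := hπ.sum_X_mul_pderiv
    have hmem : (n • π) ∈ idealOfVars (Fin 3) K * JJ P m := by
      rw [← heuler]
      apply Ideal.sum_mem
      intro l _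
      apply Ideal.mul_mem_mul (Ideal.subset_span (Set.mem_range_self l))
      refine mem_JJ_of_form hπ.pderiv fun i => ?_
      exact pderiv_mem_Vi (Vi_mono (hk i) (hk1 i)) l
    have hnK : (n : K) ≠ 0 := by
      intro h
      rw [CharP.cast_eq_zero_iff K p] at h
      exact absurd (Nat.le_of_dvd hn1 h) (by omega)
    have hπmem : π ∈ idealOfVars (Fin 3) K * JJ P m := by
      have h1 : π = C ((n : K)⁻¹) * (n • π) := by
        rw [nsmul_eq_mul, ← mul_assoc, ← map_natCast (C : K →+* MvPolynomial (Fin 3) K) n, ← C_mul,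
          inv_mul_cancel₀ hnK, C_1, one_mul]
      rw [h1]
      exact Ideal.mul_mem_left _ _ hmem
    rw [hg, ← mul_pow]
    exact Ideal.mul_mem_right _ _ (Ideal.pow_mem_pow hπmem t)

end charp

end Pool.Agent.Helper50.N2
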