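import Mathlib
import Pool.Agent.Helper50.N2.Comp
import Pool.Agent.Helper50.Dem.Reduce

/-!
# Transfer of non-membership along ring homomorphisms
-/

set_option autoImplicit false

open MvPolynomial

namespace Pool.Agent.Helper50.N2

open Pool.Agent.Helper50.Dem

variable {σ : Type} [DecidableEq σ] [Fintype σ] {ι : Type*} [Fintype ι]

/-- index set of the vanishing conditions -/
abbrev Rw (σ : Type) [DecidableEq σ] [Fintype σ] {ι : Type*} [Fintype ι] (m : ι → ℕ) :=
  {r : Σ _ : ι, σ →₀ ℕ // r ∈ (Finset.univ : Finset ι).sigma (fun i => Bd σ (m i))}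

section ring

variable {A : Type*} [CommRing A]

/-- the matrix of the vanishing conditions in degree `k` -/
noncomputable def TM (P : ι → σ → A) (m : ι → ℕ) (k : ℕ) : Matrix (Rw σ m) (Ex σ k) A :=
  fun r c => coeff r.1.2 (tr (P r.1.1) (monomial c.1 1))

lemma TM_map {B : Type*} [CommRing B] (κ : A →+* B) (P : ι → σ → A) (m : ι → ℕ) (k : ℕ) :
    (TM P m k).map κ = TM (fun i s => κ (P i s)) m k := by
  ext r c
  rw [Matrix.map_apply]
  unfold TM
  rw [← coeff_map, map_tr, map_monomial, map_one]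

lemma vanish_iff {P : ι → σ → A} {m : ι → ℕ} {k : ℕ} {g : MvPolynomial σ A}
    (hg : g.IsHomogeneous k) :
    (∀ i, g ∈ Vi (P i) (m i)) ↔ (TM P m k).mulVec (fun c => coeff c.1 g) = 0 := by
  have h1 : ∀ r : Rw σ m, (TM P m k).mulVec (fun c => coeff c.1 g) r
      = coeff r.1.2 (tr (P r.1.1) g) := by
    intro r
    rw [coeff_tr_form hg, ← Finset.sum_coe_sort]
    unfold Matrix.mulVec dotProduct TM
    apply Finset.sum_congr rfl
    intro c _
    rw [mul_comm]
  constructor
  · intro h
    funext r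
    rw [h1, Pi.zero_apply]
    have h2 := r.2
    rw [Finset.mem_sigma] at h2
    exact mem_Vi.1 (h r.1.1) _ (mem_Bd.1 h2.2)
  · intro h i
    rw [mem_Vi]
    intro u hu
    have h2 := congrFun h ⟨⟨i, u⟩, Finset.mem_sigma.2 ⟨Finset.mem_univ _, mem_Bd.2 hu⟩⟩
    rw [h1] at h2
    exact h2

/-- the projection matrix `1 - G T` -/
noncomputable def PM (P : ι → σ → A) (m : ι → ℕ) {k : ℕ} (G : Matrix (Ex σ k) (Rw σ m) A) :
    Matrix (Ex σ k) (Ex σ k) A := 1 - G * TM P m k

/-- the forms given by the columns of `1 - G T` -/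
noncomputable def bb (P : ι → σ → A) (m : ι → ℕ) {k : ℕ} (G : Matrix (Ex σ k) (Rw σ m) A)
    (c : Ex σ k) : MvPolynomial σ A :=
  ∑ c₀ : Ex σ k, monomial c₀.1 (PM P m G c₀ c)

lemma bb_isHomogeneous (P : ι → σ → A) (m : ι → ℕ) {k : ℕ} (G : Matrix (Ex σ k) (Rw σ m) A)
    (c : Ex σ k) : (bb P m G c).IsHomogeneous k := by
  unfold bb
  apply IsHomogeneous.sum
  intro c₀ _
  exact isHomogeneous_monomial _ (mem_Ex.1 c₀.2)

lemma coeff_sum_monomial {k : ℕ} (v : Ex σ k → A) (c : Ex σ k) :
    coeff c.1 (∑ c₀ : Ex σ k, monomial c₀.1 (v c₀)) = v c := by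
  rw [coeff_sum, Finset.sum_eq_single c]
  · rw [coeff_monomial, if_pos rfl]
  · intro b _ hb
    rw [coeff_monomial, if_neg]
    exact fun h => hb (Subtype.ext h)
  · intro h; exact absurd (Finset.mem_univ _) h

lemma coeff_bb (P : ι → σ → A) (m : ι → ℕ) {k : ℕ} (G : Matrix (Ex σ k) (Rw σ m) A)
    (c c₀ : Ex σ k) : coeff c₀.1 (bb P m G c) = PM P m G c₀ c := by
  unfold bb
  rw [coeff_sum_monomial (fun c₀ => PM P m G c₀ c)]

lemma bb_map {B : Type*} [CommRing B] (κ : A →+* B) (P : ι → σ → A) (m : ι → ℕ) {k : ℕ}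
    (G : Matrix (Ex σ k) (Rw σ m) A) (c : Ex σ k) :
    map κ (bb P m G c) = bb (fun i s => κ (P i s)) m (G.map κ) c := by
  unfold bb
  rw [map_sum]
  apply Finset.sum_congr rfl
  intro c₀ _
  rw [map_monomial]
  congr 1
  unfold PM
  rw [← TM_map, ← Matrix.map_mul]
  simp only [Matrix.sub_apply, map_sub, Matrix.map_apply, Matrix.one_apply]
  split_ifs <;> simp

lemma bb_vanish {P : ι → σ → A} {m : ι → ℕ} {k : ℕ} {G : Matrix (Ex σ k) (Rw σ m) A}
    (hG : TM P m k * G * TM P m k = TM P m k) (c : Ex σ k) (i : ι) :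
    bb P m G c ∈ Vi (P i) (m i) := by
  revert i
  rw [vanish_iff (bb_isHomogeneous P m G c)]
  have h1 : (fun c₀ : Ex σ k => coeff c₀.1 (bb P m G c))
      = (PM P m G).mulVec (Pi.single c 1) := by
    funext c₀
    rw [coeff_bb, Matrix.mulVec_single_one]
    rfl
  rw [h1, PM, Matrix.mulVec_mulVec, Matrix.mul_sub, Matrix.mul_one, ← Matrix.mul_assoc, hG, sub_self,
    Matrix.zero_mulVec]

lemma form_eq_sum_bb {P : ι → σ → A} {m : ι → ℕ} {k : ℕ} (G : Matrix (Ex σ k) (Rw σ m) A)
    {g : MvPolynomial σ A} (hg : g.IsHomogeneous k) (hV : ∀ i, g ∈ Vi (P i) (m i)) :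
    g = ∑ c : Ex σ k, coeff c.1 g • bb P m G c := by
  have h0 := (vanish_iff hg).1 hV
  ext u
  by_cases hu : u.degree = k
  · have h1 : coeff u (∑ c : Ex σ k, coeff c.1 g • bb P m G c)
        = (PM P m G).mulVec (fun c => coeff c.1 g) ⟨u, mem_Ex.2 hu⟩ := by
      rw [coeff_sum]
      unfold Matrix.mulVec dotProduct
      apply Finset.sum_congr rfl
      intro c _
      rw [coeff_smul, smul_eq_mul, coeff_bb P m G c ⟨u, mem_Ex.2 hu⟩, mul_comm]
    rw [h1, PM, Matrix.sub_mulVec, Matrix.one_mulVec, ← Matrix.mulVec_mulVec, h0, Matrix.mulVec_zero,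
      sub_zero]
  · rw [hg.coeff_eq_zero hu, coeff_sum, Finset.sum_eq_zero]
    intro c _
    rw [coeff_smul, (bb_isHomogeneous P m G c).coeff_eq_zero hu, smul_zero]

/-- a functional on forms of degree `d` -/
noncomputable def chi {d : ℕ} (x : Ex σ d → A) : MvPolynomial σ A →ₗ[A] A :=
  ∑ c : Ex σ d, x c • lcoeff A c.1

lemma chi_apply {d : ℕ} (x : Ex σ d → A) (u : MvPolynomial σ A) :
    chi x u = ∑ c : Ex σ d, x c * coeff c.1 u := by
  unfold chi
  rw [LinearMap.sum_apply]
  rfl

lemma chi_map {B : Type*} [CommRing B] (κ : A →+* B) {d : ℕ} (x : Ex σ d → A)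
    (u : MvPolynomial σ A) : chi (fun c => κ (x c)) (map κ u) = κ (chi x u) := by
  rw [chi_apply, chi_apply, map_sum]
  apply Finset.sum_congr rfl
  intro c _
  rw [map_mul, coeff_map]

lemma chi_form {d n : ℕ} (x : Ex σ d → A) {u : MvPolynomial σ A} (hu : u.IsHomogeneous n)
    (hn : n ≠ d) : chi x u = 0 := by
  rw [chi_apply]
  apply Finset.sum_eq_zero
  intro c _
  rw [hu.coeff_eq_zero, mul_zero]
  rw [mem_Ex.1 c.2]
  exact Ne.symm hn

end ring

section transfer

lemma prod_mem_pow {R S : Type*} [CommRing R] [CommRing S] [Algebra R S] (M : Submodule R S)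
    (n : ℕ) (u : Fin n → S) (hu : ∀ i, u i ∈ M) : ∏ i, u i ∈ M ^ n := by
  induction n with
  | zero => rw [Fin.prod_univ_zero, pow_zero]; exact Submodule.one_le.1 le_rfl
  | succ n ih =>
    rw [Fin.prod_univ_castSucc, pow_succ]
    exact Submodule.mul_mem_mul (ih _ fun i => hu _) (hu _)

open Pointwise in
/-- **transfer of non-membership** -/
theorem transfer_core {A K L : Type*} [CommRing A] [Field K] [Field L] (κ : A →+* K)
    (hκ : Function.Injective κ) (θ : A →+* L) (P : ι → σ → A) (m : ι → ℕ) {t d : ℕ} (ht : 0 < t)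
    (f : MvPolynomial σ A) (G : ∀ k, Matrix (Ex σ k) (Rw σ m) A)
    (hG : ∀ k ≤ d, TM P m k * G k * TM P m k = TM P m k) (x : Ex σ d → A)
    (hx1 : θ (chi x f) ≠ 0)
    (hx : ∀ u ∈ idealOfVars σ K ^ t * JJ (fun i s => κ (P i s)) m ^ t,
      chi (fun c => κ (x c)) u = 0) :
    map θ f ∉ idealOfVars σ L ^ t * JJ (fun i s => θ (P i s)) m ^ t := by
  classical
  intro hmem
  apply hx1
  rw [← chi_map]
  set I := idealOfVars σ L with hI
  set J := JJ (fun i s => θ (P i s)) m with hJ
  set χ := chi (fun c => θ (x c)) with hχ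
  -- spanning sets
  set Mon : Set (MvPolynomial σ L) := {u | ∃ w : σ →₀ ℕ, t ≤ w.degree ∧ u = monomial w 1} with hMon
  set Fr : Set (MvPolynomial σ L) :=
    {u | (∃ n, u.IsHomogeneous n) ∧ ∀ i, u ∈ Vi (fun s => θ (P i s)) (m i)} with hFr
  set Bs : Set (MvPolynomial σ L) :=
    {u | ∃ k ≤ d, ∃ c : Ex σ k, u = map θ (bb P m (G k) c)} with hBs
  have h1 : (I ^ t).restrictScalars L ≤ Submodule.span L Mon := by
    intro u hu
    have h2 := (mem_pow_idealOfVars_iff t u).1 hu
    rw [u.as_sum]
    apply Submodule.sum_mem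
    intro w hw
    have h3 : (monomial w (coeff w u) : MvPolynomial σ L) = coeff w u • monomial w 1 := by
      rw [smul_monomial, smul_eq_mul, mul_one]
    rw [h3]
    exact Submodule.smul_mem _ _ (Submodule.subset_span ⟨w, h2 w hw, rfl⟩)
  have h2 : J.restrictScalars L ≤ Submodule.span L Fr := by
    intro u hu
    rw [← sum_homogeneousComponent u]
    apply Submodule.sum_mem
    intro n _
    exact Submodule.subset_span ⟨⟨n, homogeneousComponent_isHomogeneous _ _⟩,
      Vi_of_mem_JJ (hc_mem_JJ hu n)⟩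
  have h3 : (I ^ t * J ^ t).restrictScalars L ≤ Submodule.span L (Mon * Fr ^ t) := by
    rw [Submodule.restrictScalars_mul, Submodule.restrictScalars_pow (I := J) ht.ne',
      ← Submodule.span_mul_span, ← Submodule.span_pow]
    exact mul_le_mul' h1 (pow_le_pow_left' h2 t)
  have h4 : Submodule.span L (Mon * Fr ^ t) ≤ LinearMap.ker χ := by
    rw [Submodule.span_le]
    rintro _ ⟨_, ⟨w, hw, rfl⟩, v, hv, rfl⟩
    rw [SetLike.mem_coe, LinearMap.mem_ker]
    beta_reduce
    obtain ⟨u, hu, rfl⟩ := Set.mem_pow_iff_prod.1 hv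
    choose k hk using fun i => (hu i).1
    have hform : (monomial w (1 : L) * ∏ i, u i).IsHomogeneous (w.degree + ∑ i, k i) :=
      (isHomogeneous_monomial _ rfl).mul (IsHomogeneous.prod _ _ _ fun i _ => hk i)
    by_cases hdeg : w.degree + ∑ i, k i = d
    · have hB : ∀ i, u i ∈ Submodule.span L Bs := by
        intro i
        have hki : k i ≤ d := by
          have := Finset.single_le_sum (f := k) (fun _ _ => Nat.zero_le _) (Finset.mem_univ i)
          omega
        rw [form_eq_sum_bb ((G (k i)).map θ) (hk i) (hu i).2]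
        apply Submodule.sum_mem
        intro c _
        apply Submodule.smul_mem
        exact Submodule.subset_span ⟨k i, hki, c, (bb_map θ P m (G (k i)) c).symm⟩
      have h5 : monomial w (1 : L) * ∏ i, u i ∈ Submodule.span L ({monomial w 1} * Bs ^ t) := by
        rw [← Submodule.span_mul_span, ← Submodule.span_pow]
        exact Submodule.mul_mem_mul (Submodule.mem_span_singleton_self _)
          (prod_mem_pow _ t u hB)
      have h6 : Submodule.span L ({monomial w 1} * Bs ^ t) ≤ LinearMap.ker χ := by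
        rw [Submodule.span_le]
        rintro _ ⟨_, hw', v', hv', rfl⟩
        rw [Set.mem_singleton_iff] at hw'
        subst hw'
        rw [SetLike.mem_coe, LinearMap.mem_ker]
        beta_reduce
        obtain ⟨u', hu', rfl⟩ := Set.mem_pow_iff_prod.1 hv'
        choose k' hk' c' hc' using hu'
        have h7 : monomial w (1 : L) * ∏ i, u' i
            = map θ (monomial w 1 * ∏ i, bb P m (G (k' i)) (c' i)) := by
          rw [map_mul, map_monomial, θ.map_one, map_prod]
          congr 1
          apply Finset.prod_congr rfl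
          intro i _
          exact hc' i
        rw [h7, hχ, chi_map]
        have h8 : chi x (monomial w 1 * ∏ i, bb P m (G (k' i)) (c' i)) = 0 := by
          apply hκ
          rw [← chi_map, map_zero]
          apply hx
          rw [map_mul, map_monomial, κ.map_one, map_prod]
          apply Ideal.mul_mem_mul
          · exact idealOfVars_pow_of_form hw (isHomogeneous_monomial _ rfl)
          · have h9 : ∀ i : Fin t, map κ (bb P m (G (k' i)) (c' i))
                ∈ JJ (fun i s => κ (P i s)) m := by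
              intro i
              refine mem_JJ_of_form ((bb_isHomogeneous _ _ _ _).map κ) fun j => ?_
              exact map_mem_Vi κ (bb_vanish (hG _ (hk' i)) _ j)
            have h10 := Ideal.prod_mem_prod (s := (Finset.univ : Finset (Fin t)))
              (I := fun _ => JJ (fun i s => κ (P i s)) m)
              (x := fun i => map κ (bb P m (G (k' i)) (c' i))) (fun i _ => h9 i)
            rwa [Finset.prod_const, Finset.card_univ, Fintype.card_fin] at h10
        rw [h8, map_zero]
      exact h6 h5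
    · exact chi_form _ hform hdeg
  exact h4 (h3 hmem)

end transfer

end Pool.Agent.Helper50.N2
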