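import Mathlib
import Pool.Agent.Helper50.N2.Coord
import Pool.Agent.Helper50.N2.Transfer

/-!
# The containment for forms over every field of characteristic zero (or large)
-/

set_option autoImplicit false

open MvPolynomial

namespace Pool.Agent.Helper50.N2

open Pool.Agent.Helper50.Dem

universe u

section homog

variable {σ : Type} {K : Type*} [CommRing K]

/-- homogeneous ideals -/
def HI (I : Ideal (MvPolynomial σ K)) : Prop := ∀ u ∈ I, ∀ n, homogeneousComponent n u ∈ I

lemma HI.eq_span {I : Ideal (MvPolynomial σ K)} (hI : HI I) :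
    I = Ideal.span {u | (∃ n, u.IsHomogeneous n) ∧ u ∈ I} := by
  apply le_antisymm
  · intro u hu
    rw [← sum_homogeneousComponent u]
    exact Ideal.sum_mem _ fun n _ => Ideal.subset_span
      ⟨⟨n, homogeneousComponent_isHomogeneous _ _⟩, hI u hu n⟩
  · rw [Ideal.span_le]
    rintro u ⟨_, hu⟩
    exact hu

lemma HI_span {S : Set (MvPolynomial σ K)} (hS : ∀ s ∈ S, ∃ k : ℕ, s.IsHomogeneous k) :
    HI (Ideal.span S) := fun _ hu n => exists_form_of_mem_span hS hu n

lemma HI.mul {I J : Ideal (MvPolynomial σ K)} (hI : HI I) (hJ : HI J) : HI (I * J) := by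
  rw [hI.eq_span, hJ.eq_span, Ideal.span_mul_span']
  apply HI_span
  rintro _ ⟨u, ⟨⟨n, hn⟩, _⟩, v, ⟨⟨l, hl⟩, _⟩, rfl⟩
  exact ⟨n + l, hn.mul hl⟩

lemma HI.pow {I : Ideal (MvPolynomial σ K)} (hI : HI I) (n : ℕ) : HI (I ^ n) := by
  induction n with
  | zero => rw [pow_zero, Ideal.one_eq_top]; intro u _ _; trivial
  | succ n ih => rw [pow_succ]; exact ih.mul hI

lemma HI_vars : HI (idealOfVars σ K) := by
  apply HI_span
  rintro _ ⟨i, rfl⟩
  exact ⟨1, isHomogeneous_X _ _⟩

lemma HI_JJ {ι : Type*} (P : ι → σ → K) (μ : ι → ℕ) : HI (JJ P μ) := fun _ hu n => hc_mem_JJ hu n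

end homog

/-- generalised inverses of matrices over fields -/
lemma exists_genInv {K : Type*} [Field K] {R C : Type*} [Fintype R] [Fintype C] [DecidableEq R]
    [DecidableEq C] (T : Matrix R C K) : ∃ G : Matrix C R K, T * G * T = T := by
  set T' := Matrix.toLin' T with hT'
  set Tb := (LinearMap.ker T').liftQ T' le_rfl with hTb
  have hker : LinearMap.ker Tb = ⊥ := Submodule.ker_liftQ_eq_bot _ _ _ le_rfl
  obtain ⟨Gb, hGb⟩ := LinearMap.exists_leftInverse_of_injective Tb hker
  obtain ⟨s, hs⟩ := LinearMap.exists_rightInverse_of_surjective (LinearMap.ker T').mkQ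
    (Submodule.range_mkQ _)
  have hTm : Tb ∘ₗ (LinearMap.ker T').mkQ = T' := Submodule.liftQ_mkQ _ _ _
  refine ⟨LinearMap.toMatrix' (s ∘ₗ Gb), ?_⟩
  apply (Matrix.toLin' (R := K)).injective
  rw [Matrix.toLin'_mul, Matrix.toLin'_mul, Matrix.toLin'_toMatrix', ← hT']
  have h1 : T' ∘ₗ s = Tb := by
    apply LinearMap.ext
    intro v
    have h2 : Tb ((LinearMap.ker T').mkQ (s v)) = T' (s v) := congrArg (fun φ => φ (s v)) hTm
    have h3 : (LinearMap.ker T').mkQ (s v) = v := congrArg (fun φ => φ v) hs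
    rw [h3] at h2
    exact h2.symm
  calc (T' ∘ₗ s ∘ₗ Gb) ∘ₗ T' = (T' ∘ₗ s) ∘ₗ Gb ∘ₗ T' := rfl
    _ = Tb ∘ₗ Gb ∘ₗ (Tb ∘ₗ (LinearMap.ker T').mkQ) := by rw [h1, hTm]
    _ = Tb ∘ₗ (Gb ∘ₗ Tb) ∘ₗ (LinearMap.ker T').mkQ := rfl
    _ = T' := by rw [hGb, LinearMap.id_comp, hTm]

section data

variable {σ : Type} [DecidableEq σ] [Fintype σ] {ι : Type*} [Fintype ι] {K : Type*} [Field K]

/-- linear algebra data certifying non-membership -/
lemma exists_data (P : ι → σ → K) (m : ι → ℕ) {t d : ℕ} {f : MvPolynomial σ K}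
    (hf : f.IsHomogeneous d) (hnot : f ∉ idealOfVars σ K ^ t * JJ P m ^ t) :
    ∃ (G : ∀ k, Matrix (Ex σ k) (Rw σ m) K) (x : Ex σ d → K),
      (∀ k, TM P m k * G k * TM P m k = TM P m k) ∧ chi x f = 1 ∧
      ∀ u ∈ idealOfVars σ K ^ t * JJ P m ^ t, chi x u = 0 := by
  classical
  have hG := fun k => exists_genInv (TM P m k)
  choose G hG using hG
  obtain ⟨χ, hχf, hχ⟩ := Submodule.exists_le_ker_of_notMem
    (p := (idealOfVars σ K ^ t * JJ P m ^ t).restrictScalars K) (v := f) hnot
  refine ⟨G, fun c => (χ f)⁻¹ * χ (monomial c.1 1), hG, ?_⟩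
  have hHI : HI (idealOfVars σ K ^ t * JJ P m ^ t) := (HI_vars.pow t).mul ((HI_JJ P m).pow t)
  have key : ∀ u : MvPolynomial σ K, chi (fun c : Ex σ d => (χ f)⁻¹ * χ (monomial c.1 1)) u
      = (χ f)⁻¹ * χ (homogeneousComponent d u) := by
    intro u
    have h1 : homogeneousComponent d u = ∑ c : Ex σ d, coeff c.1 u • monomial c.1 (1 : K) := by
      ext v
      rw [coeff_homogeneousComponent, coeff_sum]
      simp only [coeff_smul, coeff_monomial, smul_eq_mul]
      split_ifs with hv
      · rw [Finset.sum_eq_single ⟨v, mem_Ex.2 hv⟩]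
        · simp
        · intro b _ hb
          rw [if_neg, mul_zero]
          intro h2
          exact hb (Subtype.ext h2)
        · intro h2; exact absurd (Finset.mem_univ _) h2
      · symm
        apply Finset.sum_eq_zero
        intro c _
        rw [if_neg, mul_zero]
        intro h2
        apply hv
        rw [← h2]
        exact mem_Ex.1 c.2
    rw [h1, chi_apply, map_sum, Finset.mul_sum]
    apply Finset.sum_congr rfl
    intro c _
    rw [map_smul, smul_eq_mul]
    ring
  constructor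
  · rw [key, homogeneousComponent_eq_self hf]
    exact inv_mul_cancel₀ hχf
  · intro u hu
    rw [key]
    have h1 : homogeneousComponent d u ∈ (idealOfVars σ K ^ t * JJ P m ^ t).restrictScalars K :=
      hHI u hu d
    rw [LinearMap.mem_ker.1 (hχ h1), mul_zero]

end data

section char0

/-- **the containment for forms over a field of characteristic zero** -/
theorem main_char0 {K : Type u} [Field K] [CharZero K] {ι : Type*} [Fintype ι] [Nonempty ι]
    {P : ι → Fin 3 → K} (hP : ∀ i, P i ≠ 0) {m : ι → ℕ} {f : MvPolynomial (Fin 3) K} {d t : ℕ}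
    (ht : 0 < t) (hf : f.IsHomogeneous d) (hV : ∀ i, f ∈ Vi (P i) (t * (m i + 1))) :
    f ∈ idealOfVars (Fin 3) K ^ t * JJ P m ^ t := by
  classical
  by_contra hnot
  obtain ⟨G, x, hG, hx1, hx⟩ := exists_data P m hf hnot
  set N := 2 * t * d with hN
  set S : Finset K := ((Finset.univ : Finset (ι × Fin 3)).image (fun x => P x.1 x.2)) ∪
    ((Finset.univ : Finset (ι × Fin 3)).image (fun x => (P x.1 x.2)⁻¹)) ∪
    (f.support.image (fun u => coeff u f)) ∪
    ((Finset.range (d + 1)).biUnion (fun k =>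
      (Finset.univ : Finset (Ex (Fin 3) k × Rw (Fin 3) m)).image (fun y => G k y.1 y.2))) ∪
    ((Finset.univ : Finset (Ex (Fin 3) d)).image x) ∪ {((N.factorial : ℕ) : K)⁻¹} with hS
  set A := Algebra.adjoin ℤ (S : Set K) with hA
  have hsub : ∀ x ∈ S, x ∈ A := fun x hx => Algebra.subset_adjoin hx
  have hPA : ∀ i s, P i s ∈ A := fun i s => hsub _ (by
    rw [hS]; simp only [Finset.mem_union, Finset.mem_image]
    left; left; left; left; left; exact ⟨(i, s), Finset.mem_univ _, rfl⟩)
  have hPA' : ∀ i s, (P i s)⁻¹ ∈ A := fun i s => hsub _ (by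
    rw [hS]; simp only [Finset.mem_union, Finset.mem_image]
    left; left; left; left; right; exact ⟨(i, s), Finset.mem_univ _, rfl⟩)
  have hfA : ∀ u ∈ f.support, coeff u f ∈ A := fun u hu => hsub _ (by
    rw [hS]; simp only [Finset.mem_union, Finset.mem_image]
    left; left; left; right; exact ⟨u, hu, rfl⟩)
  have hGA : ∀ k ≤ d, ∀ a b, G k a b ∈ A := fun k hk a b => hsub _ (by
    rw [hS]; simp only [Finset.mem_union, Finset.mem_image, Finset.mem_biUnion]
    left; left; right; exact ⟨k, Finset.mem_range.2 (by omega), (a, b), Finset.mem_univ _, rfl⟩)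
  have hxA : ∀ c, x c ∈ A := fun c => hsub _ (by
    rw [hS]; simp only [Finset.mem_union, Finset.mem_image]
    left; right; exact ⟨c, Finset.mem_univ _, rfl⟩)
  have hNA : ((N.factorial : ℕ) : K)⁻¹ ∈ A := hsub _ (by
    rw [hS]; simp only [Finset.mem_union, Finset.mem_singleton]
    right; trivial)
  have hAft : Algebra.FiniteType ℤ A := by
    rw [← Subalgebra.fg_iff_finiteType]
    exact ⟨S, rfl⟩
  obtain ⟨𝔫, h𝔫⟩ := Ideal.exists_maximal A
  let F := A ⧸ 𝔫
  let _ : Field F := Ideal.Quotient.field 𝔫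
  have hFft0 := Algebra.FiniteType.of_surjective (Ideal.Quotient.mkₐ ℤ 𝔫)
    Ideal.Quotient.mk_surjective
  have hFft : @Algebra.FiniteType ℤ F _ _ (Ring.toIntAlgebra F) := by
    convert hFft0
    exact Subsingleton.elim _ _
  obtain ⟨p, hp, hchar⟩ := @exists_charP F _ hFft
  let L := AlgebraicClosure F
  have hLp : CharP L p := charP_of_injective_algebraMap (algebraMap F L).injective p
  set θ : A →+* L := (algebraMap F L).comp (Ideal.Quotient.mk 𝔫) with hθ
  have hval : Function.Injective (algebraMap A K) := Subtype.val_injective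
  have hunit : ∀ (x : K) (hx : x ∈ A) (_ : x⁻¹ ∈ A), x ≠ 0 → θ ⟨x, hx⟩ ≠ 0 := by
    intro x hx hx' hx0 h1
    have h2 : (⟨x, hx⟩ : A) * ⟨x⁻¹, hx'⟩ = 1 := Subtype.ext (mul_inv_cancel₀ hx0)
    have h3 := congrArg θ h2
    rw [map_mul, h1, zero_mul, map_one] at h3
    exact zero_ne_one h3
  -- the characteristic is large
  have hNp : N ≤ p := by
    by_contra hlt
    push Not at hlt
    have h1 : p ∣ N.factorial := (hp.dvd_factorial).2 hlt.le
    have h2 : θ ⟨((N.factorial : ℕ) : K), natCast_mem A _⟩ ≠ 0 :=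
      hunit _ _ hNA (by exact_mod_cast N.factorial_ne_zero)
    apply h2
    have h3 : (⟨((N.factorial : ℕ) : K), natCast_mem A _⟩ : A) = ((N.factorial : ℕ) : A) := rfl
    rw [h3, map_natCast]
    exact (CharP.cast_eq_zero_iff L p _).2 h1
  -- the data over `A`
  set PA : ι → Fin 3 → A := fun i s => ⟨P i s, hPA i s⟩ with hPAdef
  set fA : MvPolynomial (Fin 3) A :=
    ∑ u ∈ f.support.attach, monomial u.1 ⟨coeff u.1 f, hfA u.1 u.2⟩ with hfAdef
  have hfAmap : map (algebraMap A K) fA = f := by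
    rw [hfAdef, map_sum]
    conv_rhs => rw [f.as_sum]
    rw [← Finset.sum_attach f.support (fun v => monomial v (coeff v f))]
    apply Finset.sum_congr rfl
    intro u _
    rw [map_monomial]
    rfl
  have hfAh : fA.IsHomogeneous d := by
    apply IsHomogeneous.of_map (f := algebraMap A K) hval
    rw [hfAmap]; exact hf
  have hfAV : ∀ i, fA ∈ Vi (PA i) (t * (m i + 1)) := by
    intro i
    apply mem_Vi_of_map (algebraMap A K) hval
    rw [hfAmap]
    exact hV i
  set GA : ∀ k, Matrix (Ex (Fin 3) k) (Rw (Fin 3) m) A :=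
    fun k => if hk : k ≤ d then fun a b => ⟨G k a b, hGA k hk a b⟩ else 0 with hGAdef
  have hGAm : ∀ k ≤ d, (GA k).map (algebraMap A K) = G k := by
    intro k hk
    ext a b
    rw [Matrix.map_apply, hGAdef]
    beta_reduce
    rw [dif_pos hk]
    rfl
  have hGA1 : ∀ k ≤ d, TM PA m k * GA k * TM PA m k = TM PA m k := by
    intro k hk
    apply Matrix.map_injective hval
    beta_reduce
    rw [Matrix.map_mul, Matrix.map_mul, hGAm k hk, TM_map]
    exact hG k
  refine transfer_core (algebraMap A K) hval θ PA m ht fA GA hGA1 (fun c => ⟨x c, hxA c⟩) ?_ ?_ ?_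
  · have h1 : chi (fun c => (⟨x c, hxA c⟩ : A)) fA = 1 := by
      apply hval
      rw [← chi_map, hfAmap, map_one]
      exact hx1
    rw [h1, map_one]
    exact one_ne_zero
  · exact hx
  · have : Fact p.Prime := ⟨hp⟩
    refine main_charp p (P := fun i s => θ (PA i s)) ?_ (d := d) ht hNp (hfAh.map θ) ?_
    · intro i h1
      obtain ⟨s, hs⟩ : ∃ s, P i s ≠ 0 := by
        by_contra h2
        push Not at h2
        exact hP i (funext h2)
      exact hunit (P i s) (hPA i s) (hPA' i s) hs (congrFun h1 s)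
    · intro i
      exact map_mem_Vi θ (hfAV i)

/-- the containment for forms of degree `d` over any field of characteristic `p ≥ 2 t d` -/
theorem main_charp_any {K : Type u} [Field K] (p : ℕ) [Fact p.Prime] [CharP K p] {ι : Type*}
    [Fintype ι] [Nonempty ι] {P : ι → Fin 3 → K} (hP : ∀ i, P i ≠ 0) {m : ι → ℕ}
    {f : MvPolynomial (Fin 3) K} {d t : ℕ} (ht : 0 < t) (hp : 2 * t * d ≤ p)
    (hf : f.IsHomogeneous d) (hV : ∀ i, f ∈ Vi (P i) (t * (m i + 1))) :
    f ∈ idealOfVars (Fin 3) K ^ t * JJ P m ^ t := by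
  classical
  by_contra hnot
  obtain ⟨G, x, hG, hx1, hx⟩ := exists_data P m hf hnot
  have hLp : CharP (AlgebraicClosure K) p :=
    charP_of_injective_algebraMap (algebraMap K (AlgebraicClosure K)).injective p
  refine transfer_core (RingHom.id K) Function.injective_id (algebraMap K (AlgebraicClosure K))
    P m ht f G (fun k _ => hG k) x ?_ hx ?_
  · rw [hx1, map_one]
    exact one_ne_zero
  · refine main_charp p ?_ ht hp (hf.map _) fun i => map_mem_Vi _ (hV i)
    intro i h1
    apply hP i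
    funext s
    have h2 := congrFun h1 s
    exact (map_eq_zero_iff _ (algebraMap K (AlgebraicClosure K)).injective).1 h2

end char0

end Pool.Agent.Helper50.N2
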