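import Mathlib
import Pool.Agent.Helper50.N2.Reg2

/-!
# The ideal of a fat point scheme is generated in degrees at most the sum of the multiplicities
-/

set_option autoImplicit false

open MvPolynomial

namespace Pool.Agent.Helper50.N2

open Pool.Agent.Helper50.Dem

variable {σ : Type} [DecidableEq σ] {K : Type*} [Field K]

omit [DecidableEq σ] in
lemma mem_Vi_one_iff {P : σ → K} {g : MvPolynomial σ K} : g ∈ Vi P 1 ↔ eval P g = 0 := by
  have h : (constantCoeff : MvPolynomial σ K →+* K).comp
      (tr P : MvPolynomial σ K →ₐ[K] MvPolynomial σ K).toRingHom = eval P := by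
    apply MvPolynomial.ringHom_ext
    · intro r; simp
    · intro i; simp
  have h1 : coeff 0 (tr P g) = eval P g := congrArg (fun φ => φ g) h
  rw [mem_Vi, ← h1]
  constructor
  · intro h2
    exact h2 0 (by simp)
  · intro h2 u hu
    have : u = 0 := (Finsupp.degree_eq_zero_iff u).1 (by omega)
    rw [this]; exact h2

lemma Psi_isHomogeneous (P : σ → K) (i₀ : σ) {f : MvPolynomial σ K} {d : ℕ}
    (hf : f.IsHomogeneous d) : (Psi P i₀ f).IsHomogeneous d := by
  have := hf.aeval (S := K) (g := fun i => if i = i₀ then C (P i₀) * X i₀ else X i + C (P i) * X i₀)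
    (n := 1) (fun i => by
      split_ifs
      · exact isHomogeneous_C_mul_X _ _
      · exact (isHomogeneous_X _ _).add (isHomogeneous_C_mul_X _ _))
  simpa [Psi] using this

lemma Psi'_isHomogeneous (P : σ → K) (i₀ : σ) {f : MvPolynomial σ K} {d : ℕ}
    (hf : f.IsHomogeneous d) : (Psi' P i₀ f).IsHomogeneous d := by
  have := hf.aeval (S := K) (g := fun i => if i = i₀ then C (P i₀)⁻¹ * X i₀ else lin P i₀ i)
    (n := 1) (fun i => by
      split_ifs
      · exact isHomogeneous_C_mul_X _ _
      · exact (isHomogeneous_X _ _).sub (isHomogeneous_C_mul_X _ _))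
  simpa [Psi'] using this

lemma mem_support_Psi (P : σ → K) (i₀ : σ) {k d : ℕ} {f : MvPolynomial σ K}
    (hf : f.IsHomogeneous d) (hk : f ∈ Vi P k) {c : σ →₀ ℕ} (hc : c ∈ (Psi P i₀ f).support) :
    k ≤ (c.erase i₀).degree := by
  refine support_of_ev i₀ (Psi_isHomogeneous P i₀ hf) ?_ hc
  unfold Vi
  rw [Ideal.mem_comap, ← Psi_tr]
  exact Psi_mem i₀ hk

lemma Psi'_monomial (P : σ → K) (i₀ : σ) (c : σ →₀ ℕ) (β : K) :
    Psi' P i₀ (monomial c β)
      = (C (P i₀)⁻¹ * X i₀) ^ c i₀ * Psi' P i₀ (monomial (c.erase i₀) β) := by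
  have h2 : (monomial c β : MvPolynomial σ K) = X i₀ ^ c i₀ * monomial (c.erase i₀) β := by
    rw [X_pow_eq_monomial, monomial_mul, one_mul, Finsupp.single_add_erase]
  rw [h2, map_mul, map_pow, Psi'_X, if_pos rfl]

/-- raising the order of vanishing at one point -/
lemma interp_step {ι : Type*} [DecidableEq ι] {P : ι → σ → K} {i₀ : σ} (hP : ∀ i, P i i₀ ≠ 0)
    {m : ι → ℕ} (j : ι) {q : MvPolynomial σ K} {a : ℕ} (hq : q.IsHomogeneous a)
    (hqV : ∀ i, i ≠ j → q ∈ Vi (P i) (m i)) (hqj : eval (P j) q ≠ 0) {k : ℕ}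
    (hk : a + m j + 1 ≤ k) {v : MvPolynomial σ K} (hv : v.IsHomogeneous k) (hvJ : v ∈ JJ P m) :
    ∃ r, v - X i₀ * r ∈ JJ P (m + Pi.single j 1) := by
  classical
  set μ := m j with hμ
  set F := Psi (P j) i₀ v with hF
  have hFv : v = Psi' (P j) i₀ F := (Psi'_Psi _ _ (hP j) v).symm
  have hFh : F.IsHomogeneous k := Psi_isHomogeneous _ _ hv
  have hsupp : ∀ c ∈ F.support, μ ≤ (c.erase i₀).degree := fun c hc =>
    mem_support_Psi (P j) i₀ hv (Vi_of_mem_JJ hvJ j) hc
  obtain ⟨b, hb⟩ : ∃ b, k = a + μ + 1 + b := ⟨k - (a + μ + 1), by omega⟩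
  set κ : K := (P j i₀ ^ (b + 1) * eval (P j) q)⁻¹ with hκ
  set S := F.support.filter (fun c => (c.erase i₀).degree = μ) with hS
  set r : MvPolynomial σ K := ∑ c ∈ S,
    C κ * X i₀ ^ b * q * Psi' (P j) i₀ (monomial (c.erase i₀) (coeff c F)) with hr
  refine ⟨r, mem_JJ_of_form (n := k) ?_ ?_⟩
  · refine hv.sub ?_
    rw [hr, Finset.mul_sum]
    apply IsHomogeneous.sum
    intro c hc
    have hcd : (c.erase i₀).degree = μ := (Finset.mem_filter.1 hc).2
    have h1 := (isHomogeneous_X K i₀).mul ((((isHomogeneous_C σ κ).mul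
      (isHomogeneous_X_pow (R := K) i₀ b)).mul hq).mul (Psi'_isHomogeneous (P j) i₀
      (isHomogeneous_monomial (coeff c F) hcd)))
    have h2 : 1 + (0 + b + a + μ) = k := by omega
    rwa [h2] at h1
  · intro i
    by_cases hij : i = j
    · subst hij
      rw [Pi.add_apply, Pi.single_eq_same, ← hμ]
      have h1 : v - X i₀ * r = ∑ c ∈ F.support, (Psi' (P i) i₀ (monomial c (coeff c F))
          - if (c.erase i₀).degree = μ then X i₀ * (C κ * X i₀ ^ b * q *
            Psi' (P i) i₀ (monomial (c.erase i₀) (coeff c F))) else 0) := by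
        rw [Finset.sum_sub_distrib, ← Finset.sum_filter, ← hS, ← map_sum, ← F.as_sum, ← hFv, hr,
          Finset.mul_sum]
      rw [h1]
      apply Ideal.sum_mem
      intro c hc
      split_ifs with hcd
      · have hci : c i₀ = k - μ := by
          have h2 : c.degree = k := by
            by_contra h3
            exact (mem_support_iff.1 hc) (hFh.coeff_eq_zero h3)
          rw [← Finsupp.erase_add_single i₀ c, map_add, Finsupp.degree_single, hcd] at h2
          omega
        have h3 : Psi' (P i) i₀ (monomial c (coeff c F)) - X i₀ * (C κ * X i₀ ^ b * q *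
            Psi' (P i) i₀ (monomial (c.erase i₀) (coeff c F)))
            = ((C (P i i₀)⁻¹ * X i₀) ^ c i₀ - C κ * X i₀ ^ (b + 1) * q) *
              Psi' (P i) i₀ (monomial (c.erase i₀) (coeff c F)) := by
          rw [Psi'_monomial, pow_succ]
          ring
        rw [h3, add_comm μ 1]
        refine Vi_mul ?_ ?_
        · rw [mem_Vi_one_iff]
          simp only [map_sub, map_mul, map_pow, eval_C, eval_X]
          rw [inv_mul_cancel₀ (hP i), one_pow, hκ, mul_assoc, inv_mul_cancel₀, sub_self]
          exact mul_ne_zero (pow_ne_zero _ (hP i)) hqj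
        · have h4 := Psi'_monomial_mem_Vi (P i) i₀ (hP i) (c.erase i₀) (coeff c F)
          have h5 : (c.erase i₀).erase i₀ = c.erase i₀ := by
            ext s
            by_cases hs : s = i₀
            · subst hs; rw [Finsupp.erase_same, Finsupp.erase_same]
            · rw [Finsupp.erase_ne hs]
          rwa [h5, hcd] at h4
      · rw [sub_zero]
        refine Vi_mono ?_ (Psi'_monomial_mem_Vi (P i) i₀ (hP i) c (coeff c F))
        have := hsupp c hc
        omega
    · rw [Pi.add_apply, Pi.single_eq_of_ne hij, add_zero]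
      refine Ideal.sub_mem _ (Vi_of_mem_JJ hvJ i) (Ideal.mul_mem_left _ _ ?_)
      rw [hr]
      apply Ideal.sum_mem
      intro c _
      exact Ideal.mul_mem_right _ _ (Ideal.mul_mem_left _ _ (hqV i hij))

/-- interpolation: forms of degree at least the sum of the multiplicities -/
theorem interp {ι : Type*} [Fintype ι] {P : ι → σ → K} {i₀ : σ}
    (hP : ∀ i, P i i₀ ≠ 0) (hne : ∀ i j, i ≠ j → ∃ s, eval (P j) (lin (P i) i₀ s) ≠ 0) (n : ℕ) :
    ∀ m : ι → ℕ, ∑ i, m i = n → ∀ k, n ≤ k → ∀ u : MvPolynomial σ K, u.IsHomogeneous k →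
      ∃ r, u - X i₀ * r ∈ JJ P m := by
  classical
  induction n with
  | zero =>
    intro m hm k _ u hu
    refine ⟨0, ?_⟩
    rw [mul_zero, sub_zero]
    refine mem_JJ_of_form hu fun i => ?_
    have h1 : m i = 0 := (Finset.sum_eq_zero_iff.1 hm) i (Finset.mem_univ i)
    rw [h1]; exact Vi_zero _
  | succ n ih =>
    intro m hm k hk u hu
    obtain ⟨j, hj⟩ : ∃ j, m j ≠ 0 := by
      by_contra hcon
      push Not at hcon
      rw [Finset.sum_eq_zero (fun i _ => hcon i)] at hm
      omega
    set m' := Function.update m j (m j - 1) with hm'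
    have hmm : m = m' + Pi.single j 1 := by
      funext i
      by_cases hij : i = j
      · subst hij
        simp [hm']; omega
      · simp [hm', hij]
    have hm'j : m' j = m j - 1 := by simp [hm']
    have hm'i : ∀ i, i ≠ j → m' i = m i := fun i hi => by simp [hm', hi]
    have hsum : ∑ i, m' i = n := by
      have h1 : ∑ i, m i = ∑ i, m' i + 1 := by
        conv_lhs => rw [hmm]
        simp only [Pi.add_apply, Finset.sum_add_distrib, Finset.sum_pi_single', Finset.mem_univ,
          if_true]
      omega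
    obtain ⟨r, hr⟩ := ih m' hsum k (by omega) u hu
    have hv : (u - X i₀ * homogeneousComponent (k - 1) r).IsHomogeneous k := by
      refine hu.sub ?_
      have := (isHomogeneous_X K i₀).mul (homogeneousComponent_isHomogeneous (k - 1) r)
      have h1 : 1 + (k - 1) = k := by omega
      rwa [h1] at this
    have hvJ : u - X i₀ * homogeneousComponent (k - 1) r ∈ JJ P m' := by
      have h1 := hc_mem_JJ hr k
      rw [map_sub, homogeneousComponent_eq_self hu] at h1
      have h2 : homogeneousComponent k (X i₀ * r) = X i₀ * homogeneousComponent (k - 1) r := by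
        have h3 : k = (k - 1) + 1 := by omega
        conv_lhs => rw [h3, mul_comm]
        rw [hc_mul_form (isHomogeneous_X _ _), mul_comm]
      rwa [h2] at h1
    -- the separating form
    have : Nonempty σ := ⟨i₀⟩
    choose! s hs using hne
    set q : MvPolynomial σ K := ∏ i ∈ Finset.univ.erase j, lin (P i) i₀ (s i j) ^ m i with hq
    have hqh : q.IsHomogeneous (∑ i ∈ Finset.univ.erase j, m i) := by
      refine IsHomogeneous.prod _ _ _ fun i _ => ?_
      have := (((isHomogeneous_X K (s i j)).sub (isHomogeneous_C_mul_X (P i (s i j) / P i i₀) i₀)).pow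
        (m i))
      rwa [one_mul] at this
    have hqV : ∀ i, i ≠ j → q ∈ Vi (P i) (m' i) := by
      intro i hi
      rw [hm'i i hi, hq, ← Finset.mul_prod_erase _ _ (Finset.mem_erase.2 ⟨hi, Finset.mem_univ i⟩)]
      apply Ideal.mul_mem_right
      have := Vi_pow (lin_mem_Vi (P i) i₀ (hP i) (s i j)) (m i)
      rwa [mul_one] at this
    have hqj : eval (P j) q ≠ 0 := by
      rw [hq, map_prod]
      apply Finset.prod_ne_zero_iff.2
      intro i hi
      rw [map_pow]
      exact pow_ne_zero _ (hs i j (Finset.ne_of_mem_erase hi))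
    have hdeg : ∑ i ∈ Finset.univ.erase j, m i + m' j + 1 ≤ k := by
      have h1 := Finset.add_sum_erase Finset.univ m (Finset.mem_univ j)
      omega
    obtain ⟨r', hr'⟩ := interp_step hP j hqh hqV hqj hdeg hv hvJ
    refine ⟨homogeneousComponent (k - 1) r + r', ?_⟩
    rw [hmm]
    have h1 : u - X i₀ * (homogeneousComponent (k - 1) r + r')
        = u - X i₀ * homogeneousComponent (k - 1) r - X i₀ * r' := by ring
    rw [h1]
    exact hr'

omit [DecidableEq σ] in
/-- two vectors with nonzero `i₀` coordinates which are not proportional are separated -/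
lemma exists_separate {P Q : σ → K} {i₀ : σ} (hP : P i₀ ≠ 0)
    (hne : ∀ c : K, Q ≠ c • P) : ∃ s, eval Q (lin P i₀ s) ≠ 0 := by
  by_contra hcon
  push Not at hcon
  apply hne (Q i₀ / P i₀)
  funext s
  have h1 := hcon s
  unfold lin at h1
  simp only [map_sub, map_mul, eval_C, eval_X] at h1
  rw [Pi.smul_apply, smul_eq_mul, sub_eq_zero.1 h1]
  field_simp

end Pool.Agent.Helper50.N2
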