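import Mathlib
import Pool.Agent.Helper50.N2.Char0
import Pool.Agent.Helper50.N2.Interp
import Pool.Agent.Helper50.Dem.Bridge

/-!
# The containment for the projective plane
-/

set_option autoImplicit false

open MvPolynomial

namespace Pool.Agent.Helper50.N2

open Pool.Agent.Helper50.Dem

universe u

section large

variable {K : Type*} [Field K]

lemma shp_smul (a b c : K) (P : Fin 3 → K) : shp a b (c • P) = c • shp a b P := by
  funext i
  fin_cases i
  · simp [shp]; ring
  · simp [shp]
  · simp [shp]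

/-- the containment for forms of large degree, over an algebraically closed field of positive
characteristic -/
theorem main_large [IsAlgClosed K] (p : ℕ) [Fact p.Prime] [CharP K p] {ι : Type*} [Fintype ι]
    {P : ι → Fin 3 → K} (hP : ∀ i, P i ≠ 0) (hne : ∀ i j, i ≠ j → ∀ c : K, P j ≠ c • P i)
    {m : ι → ℕ} {f : MvPolynomial (Fin 3) K} {d t : ℕ} (ht : 0 < t)
    (hd : t * (∑ i, m i + 1) ≤ d) (hf : f.IsHomogeneous d)
    (hV : ∀ i, f ∈ Vi (P i) (t * (m i + 1))) :
    f ∈ idealOfVars (Fin 3) K ^ t * JJ P m ^ t := by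
  have hinf : Infinite K := IsAlgClosed.instInfinite
  obtain ⟨a, b, hab⟩ := exists_shear hP
  apply mem_of_sh_mem a b
  have hP' : ∀ i, shp a b (P i) ≠ 0 := fun i h => hab i (by rw [h]; rfl)
  have hmem : sh a b f ∈ JJ (fun i => shp a b (P i)) m ^ t :=
    mem_JJ_pow p (M := 1) (by rfl) hP' ht (sh_isHomogeneous a b hf) fun i => sh_mem_Vi a b (hV i)
  have hne' : ∀ i j, i ≠ j → ∃ s, eval (shp a b (P j)) (lin (shp a b (P i)) 0 s) ≠ 0 := by
    intro i j hij
    apply exists_separate (hab i)
    intro c hc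
    apply hne i j hij c
    have h1 := congrArg (shp (-a) (-b)) hc
    rwa [shp_smul, shp_shp, shp_shp] at h1
  have hgen := JJ_eq_span_of_sub (i₀ := (0 : Fin 3)) hab
    (fun k hk u hu => interp hab hne' (∑ i, m i) m rfl k hk u hu)
  have hpow := pow_eq_span hgen t
  rw [hpow] at hmem ⊢
  refine mem_mul_span_of_form (D := t * ∑ i, m i) (fun s hs => ?_) ?_ hmem
    (sh_isHomogeneous a b hf)
  · obtain ⟨⟨k, hk, hs'⟩, _⟩ := hs
    exact ⟨k, hk, hs'⟩
  · rw [Nat.mul_add, Nat.mul_one] at hd
    exact hd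

/-- **the containment for forms over any field of characteristic zero or at least
`2 t ^ 2 (∑ m + 1)`** -/
theorem main_forms {K : Type u} [Field K] {ι : Type*} [Fintype ι] [Nonempty ι]
    {P : ι → Fin 3 → K} (hP : ∀ i, P i ≠ 0) (hne : ∀ i j, i ≠ j → ∀ c : K, P j ≠ c • P i)
    {m : ι → ℕ} {f : MvPolynomial (Fin 3) K} {d t : ℕ} (ht : 0 < t)
    (hK : ringChar K = 0 ∨ 2 * t ^ 2 * (∑ i, m i + 1) ≤ ringChar K) (hf : f.IsHomogeneous d)
    (hV : ∀ i, f ∈ Vi (P i) (t * (m i + 1))) :
    f ∈ idealOfVars (Fin 3) K ^ t * JJ P m ^ t := by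
  classical
  have hchar := ringChar.charP K
  rcases CharP.char_is_prime_or_zero K (ringChar K) with hp | hp
  · have hK' : 2 * t ^ 2 * (∑ i, m i + 1) ≤ ringChar K := by
      rcases hK with h | h
      · exact absurd hp (by rw [h]; exact Nat.not_prime_zero)
      · exact h
    set p := ringChar K with hpdef
    have : Fact p.Prime := ⟨hp⟩
    by_cases hd : t * (∑ i, m i + 1) ≤ d
    · -- large degree
      by_contra hnot
      obtain ⟨G, x, hG, hx1, hx⟩ := exists_data P m hf hnot
      have hLp : CharP (AlgebraicClosure K) p :=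
        charP_of_injective_algebraMap (algebraMap K (AlgebraicClosure K)).injective p
      have hinj := (algebraMap K (AlgebraicClosure K)).injective
      refine transfer_core (RingHom.id K) Function.injective_id
        (algebraMap K (AlgebraicClosure K)) P m ht f G (fun k _ => hG k) x ?_ hx ?_
      · rw [hx1, map_one]
        exact one_ne_zero
      · have hP' : ∀ i, (fun s => algebraMap K (AlgebraicClosure K) (P i s)) ≠ 0 := by
          intro i h1
          apply hP i
          funext s
          exact (map_eq_zero_iff _ hinj).1 (congrFun h1 s)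
        refine main_large p hP' ?_ ht hd (hf.map _) fun i => map_mem_Vi _ (hV i)
        intro i j hij c hc
        obtain ⟨s, hs⟩ : ∃ s, P i s ≠ 0 := by
          by_contra h2
          push Not at h2
          exact hP i (funext h2)
        apply hne i j hij (P j s / P i s)
        have hcs := congrFun hc s
        rw [Pi.smul_apply, smul_eq_mul] at hcs
        have hcval : c = algebraMap K (AlgebraicClosure K) (P j s / P i s) := by
          rw [map_div₀, hcs, mul_div_assoc, div_self, mul_one]
          exact fun h => hs ((map_eq_zero_iff _ hinj).1 h)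
        funext s'
        apply hinj
        have h3 := congrFun hc s'
        rw [Pi.smul_apply, smul_eq_mul, hcval, ← map_mul] at h3
        exact h3
    · push Not at hd
      refine main_charp_any p hP ht ?_ hf hV
      have h1 : 2 * t * d ≤ 2 * t * (t * (∑ i, m i + 1)) := Nat.mul_le_mul_left _ hd.le
      calc 2 * t * d ≤ 2 * t * (t * (∑ i, m i + 1)) := h1
        _ = 2 * t ^ 2 * (∑ i, m i + 1) := by ring
        _ ≤ p := hK'
  · have : CharZero K := by
      rw [hp] at hchar
      exact CharP.charP_to_charZero K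
    exact main_char0 hP ht hf hV

end large

section ideals

variable {K : Type u} [Field K]

lemma HI_ptIdeal {N : ℕ} (p : Fin (N + 1) → K) : HI (ptIdeal p) := by
  apply HI_span
  rintro _ ⟨⟨i, j⟩, rfl⟩
  exact ⟨1, (isHomogeneous_C_mul_X _ _).sub (isHomogeneous_C_mul_X _ _)⟩

lemma HI_fat {N : ℕ} (Z : Finset (Fin (N + 1) → K)) (μ : (Fin (N + 1) → K) → ℕ) :
    HI (fat Z μ) := by
  intro u hu n
  unfold fat at *
  simp only [Ideal.mem_iInf] at *
  exact fun p hp => (HI_ptIdeal p).pow (μ p) u (hu p hp) n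

/-- **the containment for fat points in the plane** -/
theorem plane (Z : Finset (Fin 3 → K)) (hZ : Z.Nonempty) (h0 : ∀ p ∈ Z, p ≠ 0)
    (hp : ∀ p ∈ Z, ∀ q ∈ Z, ∀ c : K, q = c • p → q = p) (μ : (Fin 3 → K) → ℕ) (t : ℕ)
    (ht : 0 < t) (hK : ringChar K = 0 ∨ 2 * t ^ 2 * (∑ p ∈ Z, μ p + 1) ≤ ringChar K) :
    fat (N := 2) Z (fun p => t * (μ p + 1)) ≤ idealOfVars (Fin 3) K ^ t * fat (N := 2) Z μ ^ t := by
  classical
  intro f hf
  rw [← sum_homogeneousComponent f]
  apply Ideal.sum_mem
  intro n _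
  have hfn := HI_fat (N := 2) Z (fun p => t * (μ p + 1)) f hf n
  have hform := homogeneousComponent_isHomogeneous n f
  have hV := (mem_fat (N := 2) h0 (fun p => t * (μ p + 1)) hform).1 hfn
  have hne : Nonempty {p // p ∈ Z} := hZ.to_subtype
  have hmain := main_forms (ι := {p // p ∈ Z}) (P := fun p => p.1) (fun p => h0 p.1 p.2)
    (fun p q hpq c hc => hpq (Subtype.ext (hp p.1 p.2 q.1 q.2 c hc)).symm)
    (m := fun p => μ p.1) ht (by
      have h1 : ∑ p : {p // p ∈ Z}, μ p.1 = ∑ p ∈ Z, μ p := Finset.sum_coe_sort Z μ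
      rw [h1]; exact hK) hform (fun p => hV p.1 p.2)
  refine Ideal.mul_mono le_rfl (Ideal.pow_right_mono ?_ t) hmain
  rw [JJ, Ideal.span_le]
  rintro u ⟨⟨k, hk⟩, hu⟩
  exact (mem_fat (N := 2) h0 μ hk).2 fun p hp' => hu ⟨p, hp'⟩

end ideals

end Pool.Agent.Helper50.N2
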